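import Pool.Agent.PrmH.Comb

/-!
# PrbK CMB: most pairs of blocks are good
-/

set_option autoImplicit false

namespace Pool.Agent.PrbK

open Finset

open Pool.Agent.PrmH (few_heavy)

/-- the pairs `i < j < b` -/
def prs (b : ℕ) : Finset (ℕ × ℕ) := (range b ×ˢ range b).filter (fun z => z.1 < z.2)

/-- `z = (i, j)` is good: `j` lies in `T p` for at most `l` of the `p < N`, and no `T p`, `p < N`,
contains both `i` and `j` -/
def Gd (N l : ℕ) (T : ℕ → Finset ℕ) (z : ℕ × ℕ) : Prop :=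
  ((range N).filter (fun p => z.2 ∈ T p)).card ≤ l ∧ ∀ p < N, ¬ (z.1 ∈ T p ∧ z.2 ∈ T p)

-- BEGIN prs_card
/-- B1. There are `b (b - 1) / 2` pairs. (For instance `∑_{j<b} j` with `Finset.sum_range_id_mul_two`.) -/
theorem prs_card (b : ℕ) : 2 * (prs b).card = b * (b - 1) := by
  have h : (prs b).card = ∑ j ∈ range b, j := by
    unfold prs
    rw [card_filter, sum_product_right]
    refine sum_congr rfl fun j hj => ?_
    rw [← card_filter]
    have h1 : (range b).filter (fun i => i < j) = range j := by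
      ext i
      rw [mem_filter, mem_range, mem_range]
      have := mem_range.1 hj
      omega
    rw [h1, card_range]
  rw [h, mul_comm, sum_range_id_mul_two]
-- END prs_card

-- BEGIN bad_pairs
open Classical in
/-- B2. The bad pairs: the pairs whose `j` is heavy, at most `b #H` with `(l + 1) #H ≤ N K`
(`few_heavy`), and the pairs in a common `T p`, at most `N K²` (union of `T p ×ˢ T p`). -/
theorem bad_pairs (N K b l : ℕ) (T : ℕ → Finset ℕ) (hT : ∀ p < N, (T p).card ≤ K) :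
    (l + 1) * ((prs b).filter (fun z => ¬ Gd N l T z)).card ≤ b * (N * K) + (l + 1) * (N * K ^ 2) := by
  set H := (range b).filter (fun i => l < ((range N).filter (fun p => i ∈ T p)).card) with hH
  have hc := few_heavy N K b l T hT
  rw [← hH] at hc
  have hsub : (prs b).filter (fun z => ¬ Gd N l T z) ⊆
      (range b ×ˢ H) ∪ (range N).biUnion (fun p => T p ×ˢ T p) := by
    intro z hz
    obtain ⟨h1, h2⟩ := Finset.mem_filter.1 hz
    rw [prs, Finset.mem_filter, Finset.mem_product] at h1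
    by_cases h3 : ((range N).filter (fun p => z.2 ∈ T p)).card ≤ l
    · have h4 : ∃ p < N, z.1 ∈ T p ∧ z.2 ∈ T p := by
        by_contra h5
        push Not at h5
        exact h2 ⟨h3, fun p hp h6 => h5 p hp h6.1 h6.2⟩
      obtain ⟨p, hp, h5, h6⟩ := h4
      exact Finset.mem_union_right _ (Finset.mem_biUnion.2
        ⟨p, Finset.mem_range.2 hp, Finset.mem_product.2 ⟨h5, h6⟩⟩)
    · refine Finset.mem_union_left _ (Finset.mem_product.2 ⟨h1.1.1, ?_⟩)
      rw [hH]
      exact Finset.mem_filter.2 ⟨h1.1.2, not_le.1 h3⟩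
  have h7 : ((range N).biUnion (fun p => T p ×ˢ T p)).card ≤ N * K ^ 2 := by
    refine le_trans Finset.card_biUnion_le ?_
    calc ∑ p ∈ range N, (T p ×ˢ T p).card ≤ ∑ _p ∈ range N, K ^ 2 := by
          refine Finset.sum_le_sum (fun p hp => ?_)
          rw [Finset.card_product, pow_two]
          exact Nat.mul_le_mul (hT p (Finset.mem_range.1 hp)) (hT p (Finset.mem_range.1 hp))
      _ = N * K ^ 2 := by simp
  have h8 : ((prs b).filter (fun z => ¬ Gd N l T z)).card ≤ b * H.card + N * K ^ 2 := by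
    refine le_trans (Finset.card_le_card hsub) (le_trans (Finset.card_union_le _ _) ?_)
    rw [Finset.card_product, Finset.card_range]
    omega
  calc (l + 1) * ((prs b).filter (fun z => ¬ Gd N l T z)).card
      ≤ (l + 1) * (b * H.card + N * K ^ 2) := Nat.mul_le_mul_left _ h8
    _ = b * ((l + 1) * H.card) + (l + 1) * (N * K ^ 2) := by ring
    _ ≤ b * (N * K) + (l + 1) * (N * K ^ 2) := Nat.add_le_add_right (Nat.mul_le_mul_left _ hc) _
-- END bad_pairs

-- BEGIN good_frac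
theorem good_frac_N (e n T τ b B : ℕ) (he : 1 ≤ e) (hτ : 1 ≤ τ) (hT : T ≤ e * n * τ)
    (hb : 1 ≤ b) (hbn : b ≤ n) (hB : B = n / b) : T / B + 1 ≤ 3 * e * τ * b := by
  have hB1 : 1 ≤ B := by
    rw [hB]
    exact (Nat.one_le_div_iff (by omega)).2 hbn
  have hn : n ≤ 2 * B * b := by
    have h1 : n < b * (n / b + 1) := Nat.lt_mul_div_succ n (by omega)
    rw [← hB] at h1
    have h2 : b * (B + 1) ≤ b * (2 * B) := Nat.mul_le_mul_left _ (by omega)
    calc n ≤ b * (2 * B) := by omega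
      _ = 2 * B * b := by ring
  have h3 : T / B ≤ 2 * e * τ * b := by
    apply Nat.div_le_of_le_mul
    calc T ≤ e * n * τ := hT
      _ ≤ e * (2 * B * b) * τ := Nat.mul_le_mul_right _ (Nat.mul_le_mul_left _ hn)
      _ = B * (2 * e * τ * b) := by ring
  have h4 : 1 ≤ e * τ * b := Nat.mul_pos (Nat.mul_pos he hτ) hb
  have h5 : 3 * e * τ * b = 2 * e * τ * b + e * τ * b := by ring
  omega

open Classical in
/-- B3. Arithmetic, from B1 and B2. `B ≥ n / (2 b)` (as in `PrmH.params`), so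
`N = T / B + 1 ≤ 2 e τ b + 1 ≤ 3 e τ b`; with `K = 2 k ≤ 2 κ`, `κ = k + 1`:
`b N K ≤ 6 e τ κ b²`, `l + 1 ≥ 48 e² κ τ`, so `#bad ≤ b N K / (l + 1) + N K² ≤ b² / (8 e) + 12 e τ κ² b
≤ b² / (8 e) + b² / (8 e) = b² / (4 e)` and `#prs = b (b - 1) / 2 ≥ b² / 4`. -/
theorem good_frac (k e n T τ b B l : ℕ) (he : 1 ≤ e) (hτ : 1 ≤ τ) (hT : T ≤ e * n * τ)
    (hb : b = 96 * e ^ 2 * (k + 1) ^ 2 * τ) (hbn : b ≤ n) (hB : B = n / b)
    (hl : l = 48 * e ^ 2 * (k + 1) * τ) (Tc : ℕ → Finset ℕ)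
    (hTc : ∀ p < T / B + 1, (Tc p).card ≤ 2 * k) :
    e * ((prs b).filter (fun z => ¬ Gd (T / B + 1) l Tc z)).card ≤ (prs b).card := by
  have hb2 : 2 ≤ b := by
    have : 0 < e ^ 2 * (k + 1) ^ 2 * τ := by positivity
    have h2 : b = 96 * (e ^ 2 * (k + 1) ^ 2 * τ) := by rw [hb]; ring
    omega
  have hN : T / B + 1 ≤ 3 * e * τ * b := good_frac_N e n T τ b B he hτ hT (by omega) hbn hB
  have hbad := bad_pairs (T / B + 1) (2 * k) b l Tc hTc
  have hprs := prs_card b
  set N := T / B + 1 with hNdef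
  set bad := ((prs b).filter (fun z => ¬ Gd N l Tc z)).card with hbaddef
  set P := (prs b).card with hPdef
  have h1 : 8 * e * (b * (N * (2 * k))) ≤ (l + 1) * b ^ 2 := by
    calc 8 * e * (b * (N * (2 * k))) ≤ 8 * e * (b * ((3 * e * τ * b) * (2 * (k + 1)))) := by
          apply Nat.mul_le_mul_left
          apply Nat.mul_le_mul_left
          apply Nat.mul_le_mul hN
          omega
      _ = (48 * e ^ 2 * (k + 1) * τ) * b ^ 2 := by ring
      _ = l * b ^ 2 := by rw [← hl]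
      _ ≤ (l + 1) * b ^ 2 := Nat.mul_le_mul_right _ (by omega)
  have h2 : 8 * e * (N * (2 * k) ^ 2) ≤ b ^ 2 := by
    have hk : (2 * k) ^ 2 ≤ 4 * (k + 1) ^ 2 := by
      have : (2 * k) ^ 2 ≤ (2 * (k + 1)) ^ 2 := Nat.pow_le_pow_left (by omega) 2
      calc (2 * k) ^ 2 ≤ (2 * (k + 1)) ^ 2 := this
        _ = 4 * (k + 1) ^ 2 := by ring
    calc 8 * e * (N * (2 * k) ^ 2) ≤ 8 * e * ((3 * e * τ * b) * (4 * (k + 1) ^ 2)) := by
          apply Nat.mul_le_mul_left
          exact Nat.mul_le_mul hN hk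
      _ = (96 * e ^ 2 * (k + 1) ^ 2 * τ) * b := by ring
      _ = b * b := by rw [← hb]
      _ = b ^ 2 := by ring
  have h3 : (l + 1) * (8 * e * bad) ≤ (l + 1) * (2 * b ^ 2) := by
    calc (l + 1) * (8 * e * bad) = 8 * e * ((l + 1) * bad) := by ring
      _ ≤ 8 * e * (b * (N * (2 * k)) + (l + 1) * (N * (2 * k) ^ 2)) := Nat.mul_le_mul_left _ hbad
      _ = 8 * e * (b * (N * (2 * k))) + (l + 1) * (8 * e * (N * (2 * k) ^ 2)) := by ring
      _ ≤ (l + 1) * b ^ 2 + (l + 1) * b ^ 2 := Nat.add_le_add h1 (Nat.mul_le_mul_left _ h2)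
      _ = (l + 1) * (2 * b ^ 2) := by ring
  have h4 : 8 * e * bad ≤ 2 * b ^ 2 := Nat.le_of_mul_le_mul_left h3 (by omega)
  have h5 : b ^ 2 ≤ 4 * P := by
    obtain ⟨c, rfl⟩ : ∃ c, b = c + 2 := ⟨b - 2, by omega⟩
    have h6 : 2 * P = (c + 2) * (c + 1) := hprs
    nlinarith
  have h6 : 8 * (e * bad) ≤ 8 * P := by
    calc 8 * (e * bad) = 8 * e * bad := by ring
      _ ≤ 2 * b ^ 2 := h4
      _ ≤ 8 * P := by omega
  omega
-- END good_frac

end Pool.Agent.PrbK
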