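import Pool.Agent.PrbM.Chn

/-!
# PrbK PTH: the mode automaton along a path
-/

set_option autoImplicit false

namespace Pool.Agent.PrbK

open Finset

open Pool.Agent.PrbM

open scoped Classical

variable {C : Type}

/-- The mode automaton along the sequence `c` (in mode `s` at `c 0`) makes at most `m` changes of
the mode in `t` steps and does not fail. -/
def okp (A : Bool → Set C) : ℕ → ℕ → Bool → (ℕ → C) → Prop
  | 0, _, _, _ => True
  | t + 1, m, s, c => (c 1 ∈ A s ∧ okp A t m s (fun i => c (i + 1))) ∨
      (c 1 ∉ A s ∧ c 1 ∈ A (!s) ∧ m ≠ 0 ∧ okp A t (m - 1) (!s) (fun i => c (i + 1)))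

-- BEGIN px_path
theorem px_path_sum (acc : Set C) (st : C → Bool → C) (A : Bool → Set C) (t m : ℕ) (s : Bool)
    (c : C) : (({u : Fin t → Bool | path st c (coins u) t ∈ acc ∧
      okp A t m s (path st c (coins u))}.ncard : ℕ) : ℝ) =
      ∑ u : Fin t → Bool, if (path st c (coins u) t ∈ acc ∧ okp A t m s (path st c (coins u)))
        then (1 : ℝ) else 0 := by
  rw [Set.ncard_eq_toFinset_card', Finset.sum_boole]
  congr 2
  ext u
  simp

theorem px_path_ok (st : C → Bool → C) (A : Bool → Set C) (t m : ℕ) (s : Bool) (c : C) (b : Bool)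
    (u : Fin t → Bool) :
    okp A (t + 1) m s (path st c (coins (Fin.cons b u : Fin (t + 1) → Bool))) ↔
      (st c b ∈ A s ∧ okp A t m s (path st (st c b) (coins u))) ∨
      (st c b ∉ A s ∧ st c b ∈ A (!s) ∧ m ≠ 0 ∧
        okp A t (m - 1) (!s) (path st (st c b) (coins u))) := by
  have h : (fun i => path st c (coins (Fin.cons b u : Fin (t + 1) → Bool)) (i + 1)) =
      path st (st c b) (coins u) := by
    funext i
    exact ex_eq_path st c b u i
  have h1 : path st c (coins (Fin.cons b u : Fin (t + 1) → Bool)) 1 = st c b := by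
    have := ex_eq_path st c b u 0
    simpa [path] using this
  rw [okp, h, h1]

/-- H1. As `pacc_eq` in `PrbM/Chn.lean` (split off the first coin, `ex_eq_path`): `px` is the share
of the coin sequences that end in `acc` and along which the mode automaton does not fail. -/
theorem px_path (acc : Set C) (st : C → Bool → C) (A : Bool → Set C) (t m : ℕ) (s : Bool) (c : C) :
    px acc st A t m s c = (({u : Fin t → Bool | path st c (coins u) t ∈ acc ∧
      okp A t m s (path st c (coins u))}.ncard : ℕ) : ℝ) / 2 ^ t := by
  induction t generalizing m s c with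
  | zero =>
    rw [px_path_sum]
    by_cases hc : c ∈ acc <;> simp [px, path, hc, okp]
  | succ t ih =>
    rw [px_path_sum, px]
    have h1 : ∑ u : Fin (t + 1) → Bool, (if (path st c (coins u) (t + 1) ∈ acc ∧
          okp A (t + 1) m s (path st c (coins u))) then (1 : ℝ) else 0) =
        ∑ b : Bool, ∑ u : Fin t → Bool,
          (if (path st (st c b) (coins u) t ∈ acc ∧
            ((st c b ∈ A s ∧ okp A t m s (path st (st c b) (coins u))) ∨
            (st c b ∉ A s ∧ st c b ∈ A (!s) ∧ m ≠ 0 ∧
              okp A t (m - 1) (!s) (path st (st c b) (coins u))))) then (1 : ℝ) else 0) := by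
      rw [← Fintype.sum_prod_type'
        (f := fun (b : Bool) (u : Fin t → Bool) =>
          (if (path st (st c b) (coins u) t ∈ acc ∧
            ((st c b ∈ A s ∧ okp A t m s (path st (st c b) (coins u))) ∨
            (st c b ∉ A s ∧ st c b ∈ A (!s) ∧ m ≠ 0 ∧
              okp A t (m - 1) (!s) (path st (st c b) (coins u))))) then (1 : ℝ) else 0))]
      symm
      apply Fintype.sum_equiv (Fin.consEquiv (fun _ : Fin (t + 1) => Bool))
      rintro ⟨b, u⟩
      show _ = if (path st c (coins (Fin.cons b u : Fin (t + 1) → Bool)) (t + 1) ∈ acc ∧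
        okp A (t + 1) m s (path st c (coins (Fin.cons b u : Fin (t + 1) → Bool)))) then (1 : ℝ)
        else 0
      refine if_congr ?_ rfl rfl
      rw [ex_eq_path, px_path_ok]
    have h2 : ∀ b : Bool, (if st c b ∈ A s then px acc st A t m s (st c b) else
        if st c b ∈ A (!s) then (if m = 0 then 0 else px acc st A t (m - 1) (!s) (st c b)) else 0) =
        (∑ u : Fin t → Bool,
          (if (path st (st c b) (coins u) t ∈ acc ∧
            ((st c b ∈ A s ∧ okp A t m s (path st (st c b) (coins u))) ∨
            (st c b ∉ A s ∧ st c b ∈ A (!s) ∧ m ≠ 0 ∧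
              okp A t (m - 1) (!s) (path st (st c b) (coins u))))) then (1 : ℝ) else 0)) / 2 ^ t := by
      intro b
      by_cases hb : st c b ∈ A s
      · rw [if_pos hb, ih, px_path_sum]
        congr 1
        refine Finset.sum_congr rfl fun u _ => ?_
        simp [hb]
      · by_cases hb2 : st c b ∈ A (!s)
        · by_cases hm : m = 0
          · rw [if_neg hb, if_pos hb2, if_pos hm]
            simp [hb, hm]
          · rw [if_neg hb, if_pos hb2, if_neg hm, ih, px_path_sum]
            congr 1
            refine Finset.sum_congr rfl fun u _ => ?_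
            simp [hb, hb2, hm]
        · rw [if_neg hb, if_neg hb2]
          simp [hb, hb2]
    rw [h1, Finset.sum_congr rfl (fun b _ => h2 b), ← Finset.sum_div, div_div, pow_succ]
-- END px_path

-- BEGIN okp_periods
/-- Both statements of the induction at once. -/
theorem okp_periods_aux (A : Bool → Set C) (I J : Finset ℕ) (hd : ∀ p ∈ J, p ∉ I) (t : ℕ) :
    ∀ (c : ℕ → C) (per : ℕ → ℕ), (∀ s < t, per s ≤ per (s + 1)) →
      (∀ s ≤ t, c s ∉ A true → per s ∈ J) → (∀ s ≤ t, c s ∉ A false → per s ∈ I) → ∀ m : ℕ,
      (2 * (J.filter (fun p => per 0 ≤ p)).card ≤ m → okp A t m true c) ∧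
      (∀ q ∈ J, q ≤ per 0 → 1 + 2 * (J.filter (fun p => q < p)).card ≤ m →
        okp A t m false c) := by
  induction t with
  | zero =>
    intro c per _ _ _ m
    exact ⟨fun _ => trivial, fun _ _ _ _ => trivial⟩
  | succ t ih =>
    intro c per hmono hJ hI m
    have hm' : ∀ s < t, per (s + 1) ≤ per (s + 1 + 1) := fun s hs => hmono (s + 1) (by omega)
    have hJ' : ∀ s ≤ t, c (s + 1) ∉ A true → per (s + 1) ∈ J :=
      fun s hs => hJ (s + 1) (by omega)
    have hI' : ∀ s ≤ t, c (s + 1) ∉ A false → per (s + 1) ∈ I :=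
      fun s hs => hI (s + 1) (by omega)
    have IH := ih (fun i => c (i + 1)) (fun i => per (i + 1)) hm' hJ' hI'
    have h01 : per 0 ≤ per 1 := hmono 0 (by omega)
    constructor
    · intro hm
      by_cases hc : c 1 ∈ A true
      · refine Or.inl ⟨hc, (IH m).1 ?_⟩
        have hle : (J.filter (fun p => per (0 + 1) ≤ p)).card ≤
            (J.filter (fun p => per 0 ≤ p)).card := by
          apply Finset.card_le_card
          intro p hp
          rw [Finset.mem_filter] at hp ⊢
          exact ⟨hp.1, le_trans h01 hp.2⟩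
        show 2 * (J.filter (fun p => per (0 + 1) ≤ p)).card ≤ m
        omega
      · have h1J : per 1 ∈ J := hJ 1 (by omega) hc
        have h1A : c 1 ∈ A false := by
          by_contra h
          exact hd _ h1J (hI 1 (by omega) h)
        have hlt : (J.filter (fun p => per 1 < p)).card + 1 ≤
            (J.filter (fun p => per 0 ≤ p)).card := by
          have hsub : insert (per 1) (J.filter (fun p => per 1 < p)) ⊆
              J.filter (fun p => per 0 ≤ p) := by
            intro p hp
            rw [Finset.mem_insert, Finset.mem_filter] at hp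
            rw [Finset.mem_filter]
            rcases hp with hp | hp
            · exact ⟨hp ▸ h1J, hp ▸ h01⟩
            · exact ⟨hp.1, le_trans h01 hp.2.le⟩
          have hcard := Finset.card_le_card hsub
          rw [Finset.card_insert_of_notMem (by simp)] at hcard
          exact hcard
        refine Or.inr ⟨hc, h1A, by omega, ?_⟩
        exact (IH (m - 1)).2 (per 1) h1J le_rfl (by omega)
    · intro q hq hq0 hm
      by_cases hc : c 1 ∈ A false
      · exact Or.inl ⟨hc, (IH m).2 q hq (le_trans hq0 h01) hm⟩
      · have h1I : per 1 ∈ I := hI 1 (by omega) hc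
        have h1J : per 1 ∉ J := fun h => hd _ h h1I
        have h1A : c 1 ∈ A true := by
          by_contra h
          exact h1J (hJ 1 (by omega) h)
        refine Or.inr ⟨hc, h1A, by omega, (IH (m - 1)).1 ?_⟩
        have hle : (J.filter (fun p => per (0 + 1) ≤ p)).card ≤
            (J.filter (fun p => q < p)).card := by
          apply Finset.card_le_card
          intro p hp
          rw [Finset.mem_filter] at hp ⊢
          refine ⟨hp.1, lt_of_le_of_ne (le_trans (le_trans hq0 h01) hp.2) ?_⟩
          intro he
          have h2 : per 1 = p := le_antisymm hp.2 (he ▸ le_trans hq0 h01)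
          exact h1J (h2 ▸ hp.1)
        show 2 * (J.filter (fun p => per (0 + 1) ≤ p)).card ≤ m - 1
        omega

/-- H2. `per s` is the period of step `s`, `J` the periods in which `A true` may be left, `I` those
in which `A false` may be left, `I` and `J` disjoint. Then at most `2 #J` changes of the mode.
Induction on `t` (shift `c` and `per`) of both statements
(a) `2 #{p ∈ J | per 0 ≤ p} ≤ m → okp A t m true c`;
(b) for `p₁ ∈ J`, `p₁ ≤ per 0`: `1 + 2 #{p ∈ J | p₁ < p} ≤ m → okp A t m false c`.
(a): if `c 1 ∉ A true`, then `per 1 ∈ J`, so `per 1 ∉ I`, `c 1 ∈ A false`; use (b) with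
`p₁ = per 1`, `1 + #{p ∈ J | per 1 < p} ≤ #{p ∈ J | per 0 ≤ p}`. (b): if `c 1 ∉ A false`, then
`per 1 ∈ I`, so `per 1 ∉ J`, `c 1 ∈ A true`; use (a): `per 1 ≤ p ∈ J` implies `p₁ < p`, because
`p₁ ≤ per 1` and `per 1 ∉ J`. -/
theorem okp_periods (A : Bool → Set C) (t l : ℕ) (c : ℕ → C) (per : ℕ → ℕ) (I J : Finset ℕ)
    (hmono : ∀ s < t, per s ≤ per (s + 1)) (hd : ∀ p ∈ J, p ∉ I)
    (hJ : ∀ s ≤ t, c s ∉ A true → per s ∈ J) (hI : ∀ s ≤ t, c s ∉ A false → per s ∈ I)
    (hl : J.card ≤ l) : okp A t (2 * l) true c := by
  refine ((okp_periods_aux A I J hd t c per hmono hJ hI (2 * l)).1 ?_)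
  have h := Finset.card_filter_le J (fun p => per 0 ≤ p)
  omega
-- END okp_periods

end Pool.Agent.PrbK
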