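import Pool.Agent.PrbK.Ptk
import Pool.Agent.PrbK.Pth
import Pool.Agent.PrbK.Cmb
import Pool.Agent.PrbM.Dcm
import Pool.Agent.MP_5082c5_lc.Space
import Pool.Agent.PrmH.Per

/-!
# PrbK SIM: machines as processes

`PrbM/Sim.lean` and `PrbM/Acc.lean` treat one input head; many proofs can be copied from there.
-/

set_option autoImplicit false

namespace Pool.Agent.PrbK

open Finset

open Pool.Agent.PrbM (coins path pacc px vv Dec)

open Pool.Agent.MP_5082c5_lc (Sym Move symAt newPos TM Mem memSet memSet_finite memSet_card base)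

open Pool.Agent.PrmH (Aut Cf fr touched per trav)

open scoped Classical

/-- the machine without coin and input heads (only used for its memory states) -/
def toTM (M : PTM) : TM :=
  { k := M.w, Q := M.Q, Γ := M.Γ, blank := M.blank, start := M.start, halt := M.halt
    δ := fun q s g => ((M.δ q (fun _ => s) g false).1, Move.stay,
      (M.δ q (fun _ => s) g false).2.2.1, (M.δ q (fun _ => s) g false).2.2.2) }

/-- the memory of a configuration -/
def pmem {M : PTM} (c : Conf M) : Mem (toTM M) := (c.q, c.tape, c.hd)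

/-- the configuration with memory `m` and head positions `p` -/
def mk {M : PTM} (m : Mem (toTM M)) (p : Fin M.k → ℕ) : Conf M := ⟨m.1, p, m.2.1, m.2.2⟩

/-- accepting configurations -/
def accS (M : PTM) : Set (Conf M) := {c | M.halt c.q = some true}

/-- No head scans a cell of block `i`; blocks have `B` cells, the cell `x` belongs to block
`(x - 1) / B`. -/
def Fre (M : PTM) (B i : ℕ) (c : Conf M) : Prop := ∀ h, (c.pos h - 1) / B ≠ i

/-- the configurations of the mode `true` (block `j` is not scanned) and of the mode `false`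
(block `i` is not scanned) -/
def AK (M : PTM) (S n B i j : ℕ) (s : Bool) : Set (Conf M) :=
  {c | pmem c ∈ memSet (toTM M) S ∧ (∀ h, c.pos h ≤ n + 1) ∧ Fre M B (if s then j else i) c}

/-- the configurations of the mode `!s` -/
noncomputable def EXK (M : PTM) (S n B i j : ℕ) (s : Bool) : Finset (Conf M) :=
  (((memSet_finite (toTM M) S).toFinset ×ˢ
    (Fintype.piFinset (fun _ : Fin M.k => range (n + 2)))).image (fun z => mk z.1 z.2)).filter
      (fun c => c ∈ AK M S n B i j (!s))

/-- the probability of acceptance with at most `m` changes of the mode (phases of at most `t`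
steps) -/
noncomputable def pk (M : PTM) (S n B i j t m : ℕ) (u : List Bool) : ℝ :=
  vv (accS M) (step M u) (AK M S n B i j) t m true (initConf M)

/-- the number of moving steps of the computation with the coins `x` -/
noncomputable def mvs (M : PTM) (u : List Bool) (t : ℕ) (x : Fin t → Bool) : ℕ :=
  {s : ℕ | s < t ∧ (run M u (coins x) s).pos ≠ (run M u (coins x) (s + 1)).pos}.ncard

/-- the trivial automaton: heads move anyhow -/
def au (k : ℕ) : Aut k Unit := ⟨(), Set.univ, fun _ _ _ _ => True⟩

/-- the head positions as configurations of the trivial automaton -/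
def cf (M : PTM) (u : List Bool) (r : ℕ → Bool) (s : ℕ) : Cf M.k Unit := ((), (run M u r s).pos)

-- BEGIN acc_fix
/-- K1. -/
theorem acc_fix (M : PTM) (u : List Bool) : ∀ c ∈ accS M, ∀ b, step M u c b = c := by
  intro c hc b
  have h : M.halt c.q = some true := hc
  rw [step, if_pos (by rw [h]; rfl)]
-- END acc_fix

-- BEGIN run_path
/-- K2. -/
theorem run_path (M : PTM) (u : List Bool) (r : ℕ → Bool) (t : ℕ) :
    run M u r t = path (step M u) (initConf M) r t := by
  induction t with
  | zero => rfl
  | succ t ih => rw [run, path, ih]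
-- END run_path

-- BEGIN accWithin_eq
/-- K3. (`pacc_eq`, K2.) -/
theorem accWithin_eq (M : PTM) (u : List Bool) (t : ℕ) :
    accWithin M u t = pacc (accS M) (step M u) t (initConf M) := by
  rw [Pool.Agent.PrbM.pacc_eq, accWithin]
  congr 3
  ext x
  show M.halt (run M u (coins x) t).q = some true ↔
    M.halt (path (step M u) (initConf M) (coins x) t).q = some true
  rw [run_path]
-- END accWithin_eq

-- BEGIN acc_basic
/-- K4. (K3, `pacc_bdd`, `pacc_mono`.) -/
theorem acc_basic (M : PTM) (u : List Bool) : (∀ t, 0 ≤ accWithin M u t) ∧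
    (∀ t, accWithin M u t ≤ accProb M u) ∧ 0 ≤ accProb M u ∧ accProb M u ≤ 1 ∧
    ∀ x < accProb M u, ∃ t₀, ∀ t ≥ t₀, x ≤ accWithin M u t := by
  have h0 : ∀ t, 0 ≤ accWithin M u t := fun t => by
    rw [accWithin_eq]
    exact (Pool.Agent.PrbM.pacc_bdd _ _ _ _).1
  have h1 : ∀ t, accWithin M u t ≤ 1 := fun t => by
    rw [accWithin_eq]
    exact (Pool.Agent.PrbM.pacc_bdd _ _ _ _).2
  have hb : BddAbove (Set.range fun t => accWithin M u t) := by
    refine ⟨1, ?_⟩
    rintro x ⟨s, rfl⟩
    exact h1 s
  refine ⟨h0, fun t => le_ciSup hb t, Real.iSup_nonneg h0, ciSup_le h1, fun x hx => ?_⟩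
  obtain ⟨t₀, ht₀⟩ := exists_lt_of_lt_ciSup hx
  refine ⟨t₀, fun t ht => ht₀.le.trans ?_⟩
  rw [accWithin_eq, accWithin_eq]
  exact Pool.Agent.PrbM.pacc_mono (accS M) (step M u) (acc_fix M u) (initConf M) ht
-- END acc_basic

-- BEGIN pos_le
/-- K5. (Halting configurations do not move; `newPos n i mv ≤ n + 1` if `i ≤ n + 1`.) -/
theorem pos_le (M : PTM) (u : List Bool) (r : ℕ → Bool) (t : ℕ) (h : Fin M.k) :
    (run M u r t).pos h ≤ u.length + 1 := by
  induction t with
  | zero => exact Nat.zero_le _
  | succ t ih =>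
    rw [run, step]
    split_ifs
    · exact ih
    · show newPos u.length ((run M u r t).pos h) _ ≤ u.length + 1
      generalize (M.δ (run M u r t).q (fun i => symAt u ((run M u r t).pos i))
        (fun i => (run M u r t).tape i ((run M u r t).hd i)) (r t)).2.1 h = mv
      cases mv <;> simp only [newPos] <;> omega
-- END pos_le

-- BEGIN mem_of_visited
private theorem mem_of_visited_hd (M : PTM) (u : List Bool) (r : ℕ → Bool) (t : ℕ) (i : Fin M.w) :
    (run M u r (t + 1)).hd i = (run M u r t).hd i ∨ (run M u r (t + 1)).hd i = (run M u r t).hd i + 1 ∨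
    (run M u r (t + 1)).hd i = (run M u r t).hd i - 1 := by
  rw [run, step]
  split_ifs
  · left; rfl
  · exact Pool.Agent.MP_5082c5_lc.toInt_cases _ _

private theorem mem_of_visited_tape (M : PTM) (u : List Bool) (r : ℕ → Bool) (t : ℕ) (i : Fin M.w)
    (z : ℤ) (hz : z ≠ (run M u r t).hd i) :
    (run M u r (t + 1)).tape i z = (run M u r t).tape i z := by
  rw [run, step]
  split_ifs
  · rfl
  · simp only [if_neg hz]

private theorem mem_of_visited_between (M : PTM) (u : List Bool) (r : ℕ → Bool) (i : Fin M.w)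
    (t : ℕ) : ∀ z : ℤ, ((0 ≤ z ∧ z ≤ (run M u r t).hd i) ∨ ((run M u r t).hd i ≤ z ∧ z ≤ 0)) →
      (i, z) ∈ visited M u r := by
  induction t with
  | zero =>
    intro z hz
    have h0 : (run M u r 0).hd i = 0 := rfl
    rw [h0] at hz
    have : z = 0 := by omega
    subst this
    exact ⟨0, rfl⟩
  | succ t ih =>
    intro z hz
    by_cases h : z = (run M u r (t + 1)).hd i
    · exact ⟨t + 1, h.symm⟩
    · apply ih
      have := mem_of_visited_hd M u r t i
      omega

private theorem mem_of_visited_lt (M : PTM) {u : List Bool} {r : ℕ → Bool} {s : ℕ}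
    (hs : (visited M u r).encard ≤ s) (i : Fin M.w) (t : ℕ) : |(run M u r t).hd i| < s := by
  set h := (run M u r t).hd i with hh
  have key : ((Finset.Icc (min 0 h) (max 0 h)).map
      ⟨fun z : ℤ => (i, z), fun a b hab => by simpa using hab⟩ : Set (Fin M.w × ℤ)) ⊆
      visited M u r := by
    intro x hx
    simp only [Finset.coe_map, Set.mem_image, Finset.coe_Icc,
      Set.mem_Icc] at hx
    obtain ⟨z, hz, rfl⟩ := hx
    apply mem_of_visited_between M u r i t
    rw [← hh]
    omega
  have h1 := Set.encard_le_encard key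
  rw [Set.encard_coe_eq_coe_finsetCard, Finset.card_map, Int.card_Icc] at h1
  have h2 : (((max 0 h + 1 - min 0 h).toNat : ℕ) : ℕ∞) ≤ (s : ℕ∞) := h1.trans hs
  have h3 : (max 0 h + 1 - min 0 h).toNat ≤ s := by exact_mod_cast h2
  rw [abs_lt]
  omega

private theorem mem_of_visited_blank (M : PTM) {u : List Bool} {r : ℕ → Bool} (i : Fin M.w) (z : ℤ)
    (hz : (i, z) ∉ visited M u r) (t : ℕ) : (run M u r t).tape i z = M.blank := by
  induction t with
  | zero => rfl
  | succ t ih =>
    rw [mem_of_visited_tape M u r t i z, ih]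
    rintro rfl
    exact hz ⟨t, rfl⟩

/-- K6. As `mem_of_visited` in `PrbM/Sim.lean`. -/
theorem mem_of_visited (M : PTM) (u : List Bool) (S : ℕ) (r : ℕ → Bool)
    (hS : (visited M u r).encard ≤ S) (t : ℕ) : pmem (run M u r t) ∈ memSet (toTM M) S := by
  refine ⟨fun i => (mem_of_visited_lt M hS i t).le, fun i z hz => ?_⟩
  apply mem_of_visited_blank M i z
  rintro ⟨t', ht'⟩
  have h := mem_of_visited_lt M hS i t'
  have ht2 : (run M u r t').hd i = z := ht'
  rw [ht2] at h
  omega
-- END mem_of_visited

-- BEGIN step_y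
/-- K7. A step from a configuration that does not scan the block `j` does not depend on the content
`y` of the block. (`PrmH.symAt_block` as in `PrmH.step_y`.) -/
theorem step_y (M : PTM) (B j : ℕ) (hB : 0 < B) (a x b y y' e : List Bool)
    (hj : a.length + x.length + b.length = j * B) (hy : y.length = B) (hy' : y'.length = B)
    (c : Conf M) (hc : Fre M B j c) (β : Bool) :
    step M (fr a x b y e) c β = step M (fr a x b y' e) c β := by
  have e1 : ∀ z : List Bool, fr a x b z e = (a ++ x ++ b) ++ (z ++ e) := fun z => by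
    simp [fr, List.append_assoc]
  have hl : (a ++ x ++ b).length = j * B := by
    rw [List.length_append, List.length_append]; exact hj
  have e2 : (fun i => symAt (fr a x b y e) (c.pos i)) =
      fun i => symAt (fr a x b y' e) (c.pos i) := by
    funext i
    rw [e1, e1]
    exact Pool.Agent.PrmH.symAt_block B j (c.pos i) hB _ y y' e hl hy hy' (hc i)
  have e3 : (fr a x b y e).length = (fr a x b y' e).length := by
    rw [e1, e1]
    simp only [List.length_append, hy, hy']
  unfold step
  rw [e2, e3]
-- END step_y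

-- BEGIN step_x
/-- K8. The same for the block `i` with content `x`. (`PrmH.step_x`.) -/
theorem step_x (M : PTM) (B i : ℕ) (hB : 0 < B) (a x x' b y e : List Bool)
    (ha : a.length = i * B) (hx : x.length = B) (hx' : x'.length = B)
    (c : Conf M) (hc : Fre M B i c) (β : Bool) :
    step M (fr a x b y e) c β = step M (fr a x' b y e) c β := by
  have e1 : ∀ z : List Bool, fr a z b y e = a ++ (z ++ (b ++ y ++ e)) := fun z => by
    simp [fr, List.append_assoc]
  have e2 : (fun i => symAt (fr a x b y e) (c.pos i)) = fun i => symAt (fr a x' b y e) (c.pos i) := by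
    funext h
    rw [e1, e1]
    exact Pool.Agent.PrmH.symAt_block B i (c.pos h) hB _ x x' _ ha hx hx' (hc h)
  have e3 : (fr a x b y e).length = (fr a x' b y e).length := by
    rw [e1, e1]
    simp only [List.length_append, hx, hx']
  unfold step
  rw [e2, e3]
-- END step_x

-- BEGIN EXK_card
/-- K9. (`memSet_card`: `(memSet (toTM M) S).ncard + 1 ≤ base ^ (S + 1)`.) -/
theorem EXK_card (M : PTM) (S n B i j : ℕ) (s : Bool) :
    (EXK M S n B i j s).card ≤ (memSet (toTM M) S).ncard * (n + 2) ^ M.k ∧
      1 + (memSet (toTM M) S).ncard * (n + 2) ^ M.k ≤ base (toTM M) ^ (S + 1) * (n + 2) ^ M.k := by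
  constructor
  · unfold EXK
    refine (card_filter_le _ _).trans (card_image_le.trans ?_)
    rw [card_product, ← Set.ncard_eq_toFinset_card _ (memSet_finite (toTM M) S),
      Fintype.card_piFinset]
    simp
  · have h1 := Pool.Agent.MP_5082c5_lc.memSet_card (toTM M) S
    have h2 : 1 ≤ (n + 2) ^ M.k := Nat.one_le_pow _ _ (by omega)
    calc 1 + (memSet (toTM M) S).ncard * (n + 2) ^ M.k
        ≤ (n + 2) ^ M.k + (memSet (toTM M) S).ncard * (n + 2) ^ M.k := by omega
      _ = ((memSet (toTM M) S).ncard + 1) * (n + 2) ^ M.k := by ring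
      _ ≤ _ := Nat.mul_le_mul_right _ h1
-- END EXK_card

-- BEGIN EXK_mem
/-- K10. `c = mk (pmem c) c.pos`. -/
theorem EXK_mem (M : PTM) (S n B i j : ℕ) (s : Bool) (c : Conf M) :
    c ∈ EXK M S n B i j s ↔ c ∈ AK M S n B i j (!s) := by
  unfold EXK
  rw [mem_filter]
  refine ⟨fun h => h.2, fun h => ⟨?_, h⟩⟩
  refine mem_image.2 ⟨(pmem c, c.pos), mem_product.2 ⟨?_, ?_⟩, rfl⟩
  · exact (Set.Finite.mem_toFinset _).2 h.1
  · rw [Fintype.mem_piFinset]
    intro a
    have h3 : c.pos a < n + 2 := by
      have := h.2.1 a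
      omega
    exact mem_range.2 h3
-- END EXK_mem

-- BEGIN init_mem
/-- K11. The heads stand on the cell 0, which counts for block 0; `0 ≤ i < j`. -/
theorem init_mem (M : PTM) (S n B i j : ℕ) (hij : i < j) : initConf M ∈ AK M S n B i j true := by
  refine ⟨⟨fun l => ?_, fun l z _ => rfl⟩, fun h => ?_, fun h => ?_⟩
  · show |(0 : ℤ)| ≤ (S : ℤ)
    rw [abs_zero]
    exact Int.natCast_nonneg S
  · show 0 ≤ n + 1
    exact Nat.zero_le _
  · show (0 - 1) / B ≠ j
    rw [Nat.zero_sub, Nat.zero_div]
    omega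
-- END init_mem

-- BEGIN dec_pk
/-- K12. (`PrbM.dec_vv` with `EX = EXK`, `E = ncard * (n + 2) ^ k`, K7 - K11, `Dec.mono`.) -/
theorem dec_pk (M : PTM) (S n B i j t m : ℕ) (hB : 0 < B) (hij : i < j) (a c e : List Bool)
    (ha : a.length = i * B) (hc : c.length = (j - i - 1) * B) :
    Dec ((base (toTM M) ^ (S + 1) * (n + 2) ^ M.k) ^ m)
      (fun (x : {x : List Bool // x.length = B}) (y : {y : List Bool // y.length = B}) =>
        pk M S n B i j t m (fr a x.1 c y.1 e)) := by
  have hlen : ∀ x : List Bool, x.length = B → a.length + x.length + c.length = j * B := by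
    intro x hx
    rw [ha, hx, hc]
    obtain ⟨d, rfl⟩ : ∃ d, j = i + d + 1 := ⟨j - i - 1, by omega⟩
    have h1 : i + d + 1 - i - 1 = d := by omega
    rw [h1]
    ring
  have h := PrbM.dec_vv (accS M)
    (fun (x : {x : List Bool // x.length = B}) (y : {y : List Bool // y.length = B}) =>
      step M (fr a x.1 c y.1 e)) (AK M S n B i j) (EXK M S n B i j)
    ((memSet (toTM M) S).ncard * (n + 2) ^ M.k) (fun s => (EXK_card M S n B i j s).1)
    (fun u v v' d b hd => step_y M B j hB a u.1 c v.1 v'.1 e (hlen u.1 u.2) v.2 v'.2 d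
      (by simpa using hd.2.2) b)
    (fun u u' v d b hd => step_x M B i hB a u.1 u'.1 c v.1 e ha u.2 u'.2 d
      (by simpa using hd.2.2) b)
    (fun s u v d b _ _ hd => (EXK_mem M S n B i j s _).2 hd)
    (fun s d hd => (EXK_mem M S n B i j s d).1 hd)
    t m true (initConf M) (init_mem M S n B i j hij)
  exact h.mono (Nat.pow_le_pow_left (EXK_card M S n B i j true).2 m)
-- END dec_pk

-- BEGIN pk_bdd
/-- K13. (`vv_bdd`; `vv_le_pacc` and K4.) -/
theorem pk_bdd (M : PTM) (S n B i j t m : ℕ) (u : List Bool) :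
    0 ≤ pk M S n B i j t m u ∧ pk M S n B i j t m u ≤ 1 ∧ pk M S n B i j t m u ≤ accProb M u := by
  have h := Pool.Agent.PrbM.vv_bdd (accS M) (step M u) (AK M S n B i j) t m true (initConf M)
  refine ⟨h.1, h.2, ?_⟩
  have h1 : pk M S n B i j t m u ≤ accWithin M u ((m + 1) * t) := by
    rw [accWithin_eq]
    exact Pool.Agent.PrbM.vv_le_pacc (accS M) (step M u) (acc_fix M u) (AK M S n B i j) t m true
      (initConf M)
  exact h1.trans ((acc_basic M u).2.1 _)
-- END pk_bdd

-- BEGIN comp
/-- K14. -/
theorem comp (M : PTM) (u : List Bool) (t T : ℕ) (x : Fin t → Bool) (h : mvs M u t x ≤ T) :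
    (au M.k).Comp u T t (cf M u (coins x)) := by
  refine ⟨rfl, fun s _ => ?_, Set.mem_univ _, ?_⟩
  · by_cases hh : (M.halt (run M u (coins x) s).q).isSome = true
    · refine ⟨fun _ => Move.stay, trivial, ?_⟩
      have h1 : run M u (coins x) (s + 1) = run M u (coins x) s := by
        show step M u (run M u (coins x) s) (coins x s) = _
        unfold step
        rw [if_pos hh]
      show (run M u (coins x) (s + 1)).pos = fun i => newPos u.length _ Move.stay
      rw [h1]
      rfl
    · refine ⟨(M.δ (run M u (coins x) s).q (fun i => symAt u ((run M u (coins x) s).pos i))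
        (fun i => (run M u (coins x) s).tape i ((run M u (coins x) s).hd i)) (coins x s)).2.1,
        trivial, ?_⟩
      show (step M u (run M u (coins x) s) (coins x s)).pos = _
      unfold step
      rw [if_neg hh]
      rfl
  · refine le_trans (le_of_eq ?_) h
    rfl
-- END comp

-- BEGIN path_ok
private theorem path_ok_trav {k : ℕ} {Q : Type} (c : ℕ → Cf k Q) (s s' : ℕ) (hs : s ≤ s') :
    trav c s ≤ trav c s' := by
  unfold trav
  refine Set.ncard_le_ncard ?_ ?_
  · rintro r ⟨h1, h2⟩
    exact ⟨by omega, h2⟩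
  · exact (Set.finite_Iio s').subset (fun r hr => hr.1)

/-- K15. A good pair of blocks: the mode automaton does not fail. (H2 with
`per s = PrmH.per B (cf ..) s`, `J`, `I` = the periods `p < T / B + 1` that touch `j`, `i`;
`PrmH.per_lt`, `PrmH.free_of_not_touched`; K5, K6.) -/
theorem path_ok (M : PTM) (S n B l t T : ℕ) (hB : 0 < B) (u : List Bool) (hu : u.length = n)
    (x : Fin t → Bool) (hm : mvs M u t x ≤ T)
    (hS : (visited M u (coins x)).encard ≤ S) (z : ℕ × ℕ)
    (hz : Gd (T / B + 1) l (touched B t (cf M u (coins x))) z) :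
    okp (AK M S n B z.1 z.2) t (2 * l) true (path (step M u) (initConf M) (coins x)) := by
  have hc := comp M u t T x hm
  have hper : ∀ s ≤ t, per B (cf M u (coins x)) s < T / B + 1 := fun s hs =>
    Pool.Agent.PrmH.per_lt hc B s hs
  have key : ∀ s ≤ t, ∀ b : Bool, path (step M u) (initConf M) (coins x) s ∉
      AK M S n B z.1 z.2 b → (if b then z.2 else z.1) ∈
        touched B t (cf M u (coins x)) (per B (cf M u (coins x)) s) := by
    intro s hs b hb
    by_contra hn
    apply hb
    rw [← run_path]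
    refine ⟨mem_of_visited M u S (coins x) hS s, ?_, ?_⟩
    · intro h
      have h1 := pos_le M u (coins x) s h
      rwa [hu] at h1
    · exact Pool.Agent.PrmH.free_of_not_touched B t (cf M u (coins x)) s _ hs hn
  obtain ⟨hz1, hz2⟩ := hz
  refine okp_periods (AK M S n B z.1 z.2) t l (path (step M u) (initConf M) (coins x))
    (fun s => per B (cf M u (coins x)) s)
    ((range (T / B + 1)).filter (fun p => z.1 ∈ touched B t (cf M u (coins x)) p))
    ((range (T / B + 1)).filter (fun p => z.2 ∈ touched B t (cf M u (coins x)) p))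
    ?_ ?_ ?_ ?_ ?_
  · intro s _
    exact Nat.div_le_div_right (path_ok_trav _ s (s + 1) (by omega))
  · intro p hp hp'
    rw [Finset.mem_filter] at hp hp'
    exact hz2 p (Finset.mem_range.1 hp.1) ⟨hp'.2, hp.2⟩
  · intro s hs hn
    rw [Finset.mem_filter]
    exact ⟨Finset.mem_range.2 (hper s hs), by simpa using key s hs true hn⟩
  · intro s hs hn
    rw [Finset.mem_filter]
    exact ⟨Finset.mem_range.2 (hper s hs), by simpa using key s hs false hn⟩
  · convert hz1
-- END path_ok

-- BEGIN moves_markov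
/-- K16. Markov: each of these sequences contributes more than `T` to the sum `accMoves * 2 ^ t`. -/
theorem moves_markov (M : PTM) (u : List Bool) (t T : ℕ) :
    (({x : Fin t → Bool | M.halt (run M u (coins x) t).q = some true ∧ T < mvs M u t x}.ncard : ℕ)
      : ℝ) / 2 ^ t * T ≤ accMoves M u t := by
  unfold accMoves
  rw [div_mul_eq_mul_div]
  apply div_le_div_of_nonneg_right _ (by positivity)
  have h1 : {x : Fin t → Bool | M.halt (run M u (coins x) t).q = some true ∧ T < mvs M u t x} =
      ((Finset.univ.filter (fun x : Fin t → Bool => M.halt (run M u (coins x) t).q = some true ∧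
        T < mvs M u t x) : Finset (Fin t → Bool)) : Set (Fin t → Bool)) := by
    ext x
    simp
  rw [h1, Set.ncard_coe_finset, ← nsmul_eq_mul, ← Finset.sum_const, Finset.sum_filter]
  apply Finset.sum_le_sum
  intro x _
  by_cases hx : M.halt (run M u (coins x) t).q = some true
  · rw [if_pos hx]
    split_ifs with h2
    · have h3 : (T : ℝ) ≤ (mvs M u t x : ℕ) := by exact_mod_cast h2.2.le
      exact h3
    · exact Nat.cast_nonneg _
  · rw [if_neg hx, if_neg (fun h => hx h.1)]
-- END moves_markov

-- BEGIN pk_sum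
private theorem pk_sum_acc (M : PTM) (u : List Bool) (t T : ℕ) (hT0 : 1 ≤ T)
    (X : Finset (Fin t → Bool)) (hX : X = univ.filter (fun x : Fin t → Bool =>
      M.halt (run M u (coins x) t).q = some true ∧ mvs M u t x ≤ T)) :
    accWithin M u t - accMoves M u t / T ≤ (X.card : ℝ) / 2 ^ t := by
  have hm := moves_markov M u t T
  have hTp : (0 : ℝ) < T := by exact_mod_cast hT0
  have h2 : (0 : ℝ) < 2 ^ t := by positivity
  set Y : Finset (Fin t → Bool) := univ.filter (fun x : Fin t → Bool =>
      M.halt (run M u (coins x) t).q = some true ∧ T < mvs M u t x) with hY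
  have eY : ({x : Fin t → Bool | M.halt (run M u (coins x) t).q = some true ∧
      T < mvs M u t x}.ncard : ℕ) = Y.card := by
    rw [← Set.ncard_coe_finset]
    congr 1
    ext x
    simp [hY]
  rw [eY] at hm
  have hm' : (Y.card : ℝ) / 2 ^ t ≤ accMoves M u t / T := by
    rw [le_div_iff₀ hTp]
    exact hm
  have eA : ({x : Fin t → Bool | M.halt (run M u (coins x) t).q = some true}.ncard : ℕ) =
      X.card + Y.card := by
    have h3 : {x : Fin t → Bool | M.halt (run M u (coins x) t).q = some true} =
        ((X ∪ Y : Finset (Fin t → Bool)) : Set (Fin t → Bool)) := by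
      ext x
      simp only [Set.mem_ofPred_eq, Finset.coe_union, Set.mem_union, Finset.mem_coe, hX, hY,
        Finset.mem_filter, Finset.mem_univ, true_and]
      constructor
      · intro h
        rcases Nat.lt_or_ge T (mvs M u t x) with h4 | h4
        · exact Or.inr ⟨h, h4⟩
        · exact Or.inl ⟨h, h4⟩
      · rintro (h | h)
        · exact h.1
        · exact h.1
    rw [h3, Set.ncard_coe_finset, Finset.card_union_of_disjoint]
    rw [Finset.disjoint_left]
    intro x hx hy
    rw [hX, Finset.mem_filter] at hx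
    rw [hY, Finset.mem_filter] at hy
    omega
  have e1 : accWithin M u t = (X.card : ℝ) / 2 ^ t + (Y.card : ℝ) / 2 ^ t := by
    rw [accWithin, eA]
    push_cast
    ring
  rw [e1]
  linarith

private theorem pk_sum_good (M : PTM) (n t e T τ b B l : ℕ) (u : List Bool) (he : 1 ≤ e)
    (hτ : 1 ≤ τ) (hT : T ≤ e * n * τ)
    (hb : b = 96 * e ^ 2 * (M.k + 1) ^ 2 * τ) (hbn : b ≤ n) (hB : B = n / b) (hB0 : 0 < B)
    (hl : l = 48 * e ^ 2 * (M.k + 1) * τ) (x : Fin t → Bool) (hx : mvs M u t x ≤ T) :
    (1 - 1 / (e : ℝ)) * (prs b).card ≤ (((prs b).filter (fun z =>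
      Gd (T / B + 1) l (touched B t (cf M u (coins x))) z)).card : ℝ) := by
  have h1 := good_frac M.k e n T τ b B l he hτ hT hb hbn hB hl (touched B t (cf M u (coins x)))
    (fun p _ => Pool.Agent.PrmH.touched_card (comp M u t T x hx) B hB0 p)
  have h2 := Finset.card_filter_add_card_filter_not (s := prs b)
    (p := fun z => Gd (T / B + 1) l (touched B t (cf M u (coins x))) z)
  have hep : (0 : ℝ) < e := by exact_mod_cast he
  set g := ((prs b).filter (fun z =>
    Gd (T / B + 1) l (touched B t (cf M u (coins x))) z)).card with hg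
  set w := ((prs b).filter (fun z =>
    ¬ Gd (T / B + 1) l (touched B t (cf M u (coins x))) z)).card with hw
  have h3 : (w : ℝ) ≤ (prs b).card / e := by
    rw [le_div_iff₀ hep]
    have h4 : ((e * w : ℕ) : ℝ) ≤ ((prs b).card : ℕ) := by exact_mod_cast h1
    push_cast at h4
    linarith
  have h5 : (g : ℝ) + w = (prs b).card := by exact_mod_cast h2
  have h6 : (1 - 1 / (e : ℝ)) * (prs b).card = (prs b).card - (prs b).card / e := by
    field_simp
  rw [h6]
  linarith

private theorem pk_sum_pair (M : PTM) (S n t T B l : ℕ) (u : List Bool) (hu : u.length = n)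
    (hS : ∀ r, (∃ t, M.halt (run M u r t).q = some true) → (visited M u r).encard ≤ S)
    (hB0 : 0 < B) (z : ℕ × ℕ) (hz : z.1 < z.2)
    (X : Finset (Fin t → Bool)) (hX : X = univ.filter (fun x : Fin t → Bool =>
      M.halt (run M u (coins x) t).q = some true ∧ mvs M u t x ≤ T)) :
    ((X.filter (fun x => Gd (T / B + 1) l (touched B t (cf M u (coins x))) z)).card : ℝ) / 2 ^ t ≤
      pk M S n B z.1 z.2 t (2 * l) u := by
  have h1 := Pool.Agent.PrbM.px_le_vv (accS M) (step M u) (acc_fix M u) (AK M S n B z.1 z.2) t t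
    le_rfl (2 * l) true (initConf M) (init_mem M S n B z.1 z.2 hz)
  have h2 := px_path (accS M) (step M u) (AK M S n B z.1 z.2) t (2 * l) true (initConf M)
  have h3 : (X.filter (fun x => Gd (T / B + 1) l (touched B t (cf M u (coins x))) z)).card ≤
      ({v : Fin t → Bool | path (step M u) (initConf M) (coins v) t ∈ accS M ∧
      okp (AK M S n B z.1 z.2) t (2 * l) true (path (step M u) (initConf M) (coins v))}.ncard : ℕ) := by
    rw [← Set.ncard_coe_finset]
    refine Set.ncard_le_ncard ?_ (Set.toFinite _)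
    intro x hx
    rw [Finset.mem_coe, Finset.mem_filter, hX, Finset.mem_filter] at hx
    obtain ⟨⟨_, hx1, hx2⟩, hx3⟩ := hx
    refine ⟨?_, ?_⟩
    · rw [← run_path]
      exact hx1
    · exact path_ok M S n B l t T hB0 u hu x hx2 (hS (coins x) ⟨t, hx1⟩) z hx3
  refine le_trans ?_ h1
  rw [h2]
  have h4 : (0 : ℝ) < 2 ^ t := by positivity
  rw [div_le_div_iff_of_pos_right h4]
  exact_mod_cast h3

/-- K17. `X` = the accepting coin sequences with at most `T` moving steps: `#X / 2 ^ t ≥
accWithin - accMoves / T` (K16). For `x ∈ X` at least `(1 - 1/e) #prs` pairs are good (B3 with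
`touched_card`, K14). `pk ≥ px = #{..} / 2 ^ t ≥ #{x ∈ X | z good for x} / 2 ^ t`
(`px_le_vv`, H1, K15). Sum over `z`, exchange the sums. -/
theorem pk_sum (M : PTM) (S n t e T τ b B l : ℕ) (u : List Bool) (hu : u.length = n)
    (hS : ∀ r, (∃ t, M.halt (run M u r t).q = some true) → (visited M u r).encard ≤ S)
    (he : 1 ≤ e) (hτ : 1 ≤ τ) (hT0 : 1 ≤ T) (hT : T ≤ e * n * τ)
    (hb : b = 96 * e ^ 2 * (M.k + 1) ^ 2 * τ) (hbn : b ≤ n) (hB : B = n / b)
    (hl : l = 48 * e ^ 2 * (M.k + 1) * τ) :
    (1 - 1 / (e : ℝ)) * (prs b).card * (accWithin M u t - accMoves M u t / T) ≤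
      ∑ z ∈ prs b, pk M S n B z.1 z.2 t (2 * l) u := by
  have hb0 : 0 < b := by
    rw [hb]
    have h1 : 0 < e := he
    have h2 : 0 < τ := hτ
    positivity
  have hB0 : 0 < B := by
    rw [hB]
    exact Nat.div_pos hbn hb0
  have hep : (1 : ℝ) ≤ e := by exact_mod_cast he
  have h2t : (0 : ℝ) < 2 ^ t := by positivity
  obtain ⟨X, hX⟩ : ∃ X : Finset (Fin t → Bool), X = univ.filter (fun x : Fin t → Bool =>
      M.halt (run M u (coins x) t).q = some true ∧ mvs M u t x ≤ T) := ⟨_, rfl⟩
  have h1 := pk_sum_acc M u t T hT0 X hX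
  have hnn : (0 : ℝ) ≤ (1 - 1 / (e : ℝ)) * (prs b).card := by
    refine mul_nonneg ?_ (Nat.cast_nonneg _)
    rw [sub_nonneg, div_le_one (by linarith)]
    exact hep
  have h3 : ∀ z ∈ prs b, ((X.filter (fun x =>
      Gd (T / B + 1) l (touched B t (cf M u (coins x))) z)).card : ℝ) / 2 ^ t ≤
      pk M S n B z.1 z.2 t (2 * l) u := by
    intro z hz
    exact pk_sum_pair M S n t T B l u hu hS hB0 z (Finset.mem_filter.1 hz).2 X hX
  have h4 : ∑ z ∈ prs b, ((X.filter (fun x =>
      Gd (T / B + 1) l (touched B t (cf M u (coins x))) z)).card : ℝ) =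
      ∑ x ∈ X, (((prs b).filter (fun z =>
        Gd (T / B + 1) l (touched B t (cf M u (coins x))) z)).card : ℝ) := by
    have h5 : ∀ z, ((X.filter (fun x =>
        Gd (T / B + 1) l (touched B t (cf M u (coins x))) z)).card : ℝ) =
        ∑ x ∈ X, if Gd (T / B + 1) l (touched B t (cf M u (coins x))) z then (1 : ℝ) else 0 := by
      intro z
      rw [Finset.sum_boole]
    have h6 : ∀ x : Fin t → Bool, (((prs b).filter (fun z =>
        Gd (T / B + 1) l (touched B t (cf M u (coins x))) z)).card : ℝ) =
        ∑ z ∈ prs b, if Gd (T / B + 1) l (touched B t (cf M u (coins x))) z then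
          (1 : ℝ) else 0 := by
      intro x
      rw [Finset.sum_boole]
    rw [Finset.sum_congr rfl (fun z _ => h5 z), Finset.sum_congr rfl (fun x _ => h6 x)]
    exact Finset.sum_comm
  have h7 : (X.card : ℝ) * ((1 - 1 / (e : ℝ)) * (prs b).card) ≤
      ∑ x ∈ X, (((prs b).filter (fun z =>
        Gd (T / B + 1) l (touched B t (cf M u (coins x))) z)).card : ℝ) := by
    have h8 := Finset.card_nsmul_le_sum X (fun x => (((prs b).filter (fun z =>
        Gd (T / B + 1) l (touched B t (cf M u (coins x))) z)).card : ℝ))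
        ((1 - 1 / (e : ℝ)) * (prs b).card) (by
      intro x hx
      rw [hX, Finset.mem_filter] at hx
      exact pk_sum_good M n t e T τ b B l u he hτ hT hb hbn hB hB0 hl x hx.2.2)
    rw [nsmul_eq_mul] at h8
    exact h8
  calc (1 - 1 / (e : ℝ)) * (prs b).card * (accWithin M u t - accMoves M u t / T)
      ≤ (1 - 1 / (e : ℝ)) * (prs b).card * ((X.card : ℝ) / 2 ^ t) :=
        mul_le_mul_of_nonneg_left h1 hnn
    _ = ((X.card : ℝ) * ((1 - 1 / (e : ℝ)) * (prs b).card)) / 2 ^ t := by ring
    _ ≤ (∑ x ∈ X, (((prs b).filter (fun z =>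
        Gd (T / B + 1) l (touched B t (cf M u (coins x))) z)).card : ℝ)) / 2 ^ t := by
        rw [div_le_div_iff_of_pos_right h2t]
        exact h7
    _ = ∑ z ∈ prs b, ((X.filter (fun x =>
      Gd (T / B + 1) l (touched B t (cf M u (coins x))) z)).card : ℝ) / 2 ^ t := by
        rw [← h4, Finset.sum_div]
    _ ≤ ∑ z ∈ prs b, pk M S n B z.1 z.2 t (2 * l) u := Finset.sum_le_sum h3
-- END pk_sum

end Pool.Agent.PrbK
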