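import Pool.Agent.PrbM.Wrd
import Pool.Agent.PrbK.Sim

/-!
# PrbK FRM: frames, the sieve inequality for a pair of blocks
-/

set_option autoImplicit false

namespace Pool.Agent.PrbK

open Finset

open Pool.Agent.PrbM (coins Dec SS wd)

open Pool.Agent.MP_5082c5_lc (val enc np PRIMES base)

open Pool.Agent.PrmH (fr)

-- BEGIN sum_frame
/-- F1. `PrbM.sum_split` four times (`n = i B + (n - i B)`, `n - i B = B + (n - (i+1) B)`,
`n - (i+1) B = (j-i-1) B + (n - j B)`, `n - j B = B + (n - (j+1) B)`), then exchange the sums. -/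
theorem sum_frame (n B i j : ℕ) (hij : i < j) (hj : (j + 1) * B ≤ n) (f : ℕ → ℝ) :
    ∑ s ∈ range (2 ^ n), f s = ∑ a ∈ range (2 ^ (i * B)), ∑ c ∈ range (2 ^ ((j - i - 1) * B)),
      ∑ e ∈ range (2 ^ (n - (j + 1) * B)), ∑ x ∈ range (2 ^ B), ∑ y ∈ range (2 ^ B),
        f (2 ^ (n - (i + 1) * B) * x + 2 ^ (n - (j + 1) * B) * y +
          (2 ^ (n - i * B) * a + 2 ^ (n - j * B) * c + e)) := by
  obtain ⟨m, rfl⟩ : ∃ m, j = i + 1 + m := ⟨j - i - 1, by omega⟩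
  obtain ⟨r, hr⟩ : ∃ r, n = (i + 1 + m + 1) * B + r := ⟨n - (i + 1 + m + 1) * B, by omega⟩
  have h0 : n = i * B + (B + (m * B + (B + r))) := by rw [hr]; ring
  have h1 : n - i * B = B + (m * B + (B + r)) := by omega
  have h2 : n - (i + 1) * B = m * B + (B + r) := by
    have : (i + 1) * B = i * B + B := by ring
    omega
  have h3 : n - (i + 1 + m) * B = B + r := by
    have : (i + 1 + m) * B = i * B + B + m * B := by ring
    omega
  have h4 : n - (i + 1 + m + 1) * B = r := by omega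
  have h5 : i + 1 + m - i - 1 = m := by omega
  rw [h1, h2, h3, h4, h5]
  clear h1 h2 h3 h4 h5 hr hj hij
  rw [h0, PrbM.sum_split]
  apply Finset.sum_congr rfl
  intro a _
  rw [PrbM.sum_split]
  calc ∑ x ∈ range (2 ^ B), ∑ s ∈ range (2 ^ (m * B + (B + r))),
        f (2 ^ (B + (m * B + (B + r))) * a + (2 ^ (m * B + (B + r)) * x + s))
      = ∑ x ∈ range (2 ^ B), ∑ c ∈ range (2 ^ (m * B)), ∑ y ∈ range (2 ^ B),
          ∑ e ∈ range (2 ^ r), f (2 ^ (B + (m * B + (B + r))) * a +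
            (2 ^ (m * B + (B + r)) * x + (2 ^ (B + r) * c + (2 ^ r * y + e)))) := by
        apply Finset.sum_congr rfl
        intro x _
        rw [PrbM.sum_split]
        apply Finset.sum_congr rfl
        intro c _
        rw [PrbM.sum_split]
    _ = ∑ c ∈ range (2 ^ (m * B)), ∑ x ∈ range (2 ^ B), ∑ y ∈ range (2 ^ B),
          ∑ e ∈ range (2 ^ r), f (2 ^ (B + (m * B + (B + r))) * a +
            (2 ^ (m * B + (B + r)) * x + (2 ^ (B + r) * c + (2 ^ r * y + e)))) := Finset.sum_comm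
    _ = ∑ c ∈ range (2 ^ (m * B)), ∑ e ∈ range (2 ^ r), ∑ x ∈ range (2 ^ B),
          ∑ y ∈ range (2 ^ B), f (2 ^ (m * B + (B + r)) * x + 2 ^ r * y +
            (2 ^ (B + (m * B + (B + r))) * a + 2 ^ (B + r) * c + e)) := by
        apply Finset.sum_congr rfl
        intro c _
        rw [Finset.sum_comm' (s := range (2 ^ r)) (t := fun _ => range (2 ^ B))
          (s' := fun _ => range (2 ^ r)) (t' := range (2 ^ B)) (by simp)]
        apply Finset.sum_congr rfl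
        intro x _
        rw [Finset.sum_comm]
        apply Finset.sum_congr rfl
        intro e _
        apply Finset.sum_congr rfl
        intro y _
        congr 1
        ring
-- END sum_frame

-- BEGIN wd_frame
theorem wd_frame_lt {j b x y : ℕ} (hx : x < 2 ^ j) (hy : y < 2 ^ b) :
    2 ^ b * x + y < 2 ^ (j + b) := by
  have h2 : 2 ^ b * (x + 1) ≤ 2 ^ b * 2 ^ j := Nat.mul_le_mul_left _ hx
  rw [pow_add, mul_comm (2 ^ j)]
  rw [mul_add] at h2
  omega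

theorem wd_frame_aux (p q B E a c e x y : ℕ) (ha : a < 2 ^ p) (hc : c < 2 ^ q) (he : e < 2 ^ E)
    (hx : x < 2 ^ B) (hy : y < 2 ^ B) :
    wd (p + (B + (q + (B + E)))) (2 ^ (q + (B + E)) * x + 2 ^ E * y +
        (2 ^ (B + (q + (B + E))) * a + 2 ^ (B + E) * c + e)) =
      fr (wd p a) (wd B x) (wd q c) (wd B y) (wd E e) ∧
    2 ^ (q + (B + E)) * x + 2 ^ E * y +
        (2 ^ (B + (q + (B + E))) * a + 2 ^ (B + E) * c + e) < 2 ^ (p + (B + (q + (B + E)))) := by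
  have h0 : 2 ^ (q + (B + E)) * x + 2 ^ E * y +
      (2 ^ (B + (q + (B + E))) * a + 2 ^ (B + E) * c + e) =
      2 ^ (B + (q + (B + E))) * a + (2 ^ (q + (B + E)) * x + (2 ^ (B + E) * c + (2 ^ E * y + e))) := by
    ring
  have h1 := wd_frame_lt hy he
  have h2 := wd_frame_lt hc h1
  have h3 := wd_frame_lt hx h2
  have h4 := wd_frame_lt ha h3
  rw [h0]
  refine ⟨?_, h4⟩
  rw [PrbM.wd_append _ _ _ _ ha h3, PrbM.wd_append _ _ _ _ hx h2, PrbM.wd_append _ _ _ _ hc h1,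
    PrbM.wd_append _ _ _ _ hy he]
  simp only [fr, List.append_assoc]

/-- F2. (`PrbM.wd_append` four times, same splitting; the arguments are `< 2 ^ length`.) -/
theorem wd_frame (n B i j a c e x y : ℕ) (hij : i < j) (hj : (j + 1) * B ≤ n)
    (ha : a < 2 ^ (i * B)) (hc : c < 2 ^ ((j - i - 1) * B)) (he : e < 2 ^ (n - (j + 1) * B))
    (hx : x < 2 ^ B) (hy : y < 2 ^ B) :
    wd n (2 ^ (n - (i + 1) * B) * x + 2 ^ (n - (j + 1) * B) * y +
        (2 ^ (n - i * B) * a + 2 ^ (n - j * B) * c + e)) =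
      fr (wd (i * B) a) (wd B x) (wd ((j - i - 1) * B) c) (wd B y) (wd (n - (j + 1) * B) e) ∧
    2 ^ (n - (i + 1) * B) * x + 2 ^ (n - (j + 1) * B) * y +
        (2 ^ (n - i * B) * a + 2 ^ (n - j * B) * c + e) < 2 ^ n := by
  have h := wd_frame_aux (i * B) ((j - i - 1) * B) B (n - (j + 1) * B) a c e x y ha hc he hx hy
  obtain ⟨d, rfl⟩ : ∃ d, j = i + d + 1 := ⟨j - i - 1, by omega⟩
  have hd : i + d + 1 - i - 1 = d := by omega
  rw [hd] at h ⊢
  obtain ⟨E, hE⟩ : ∃ E, n = (i + d + 1 + 1) * B + E := ⟨n - (i + d + 1 + 1) * B, by omega⟩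
  have e0 : (i + d + 1 + 1) * B = i * B + d * B + 2 * B := by ring
  have e1 : (i + d + 1) * B = i * B + d * B + B := by ring
  have e2 : (i + 1) * B = i * B + B := by ring
  have k1 : n - (i + d + 1 + 1) * B = E := by omega
  have k2 : n - (i + d + 1) * B = B + E := by omega
  have k3 : n - (i + 1) * B = d * B + (B + E) := by omega
  have k4 : n - i * B = B + (d * B + (B + E)) := by omega
  have k5 : n = i * B + (B + (d * B + (B + E))) := by omega
  rw [k1] at h ⊢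
  rw [k2, k3, k4]
  rw [← k5] at h
  exact h
-- END wd_frame

-- BEGIN sieve_frame
private theorem sieve_frame_one (v A : ℕ) (W : ℕ → ℝ)
    (hW : ∀ (N1 N2 g1 g2 c0 : ℕ) (F G : ℕ → ℝ), 2 ^ (16 * A * v) ≤ N1 → 2 ^ (16 * A * v) ≤ N2 →
      (∀ q : ℕ, q.Prime → 2 < q → Nat.Coprime g1 q ∧ Nat.Coprime g2 q) →
      (∀ x, 0 ≤ F x ∧ F x ≤ 1) → (∀ x, 0 ≤ G x ∧ G x ≤ 1) →
      SS N1 N2 g1 g2 c0 F G (fun s => if s.Prime ∧ 2 ^ (4 * A * v) < s then 1 else 0) ≤
        1 / 2 * SS N1 N2 g1 g2 c0 F G W + 6 * N1 * N2 / 2 ^ (2 * v))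
    (B K u1 u2 c0 : ℕ) (hB : 16 * A * v ≤ B) (P : ℕ → ℝ)
    (r : {x : List Bool // x.length = B} → {y : List Bool // y.length = B} → ℝ)
    (hr : Dec K r)
    (hP : ∀ x < 2 ^ B, ∀ y < 2 ^ B, P (2 ^ u1 * x + 2 ^ u2 * y + c0) =
      r ⟨wd B x, Pool.Agent.PrbM.wd_length B x⟩ ⟨wd B y, Pool.Agent.PrbM.wd_length B y⟩) :
    ∑ x ∈ range (2 ^ B), ∑ y ∈ range (2 ^ B),
        (if (2 ^ u1 * x + 2 ^ u2 * y + c0).Prime ∧ 2 ^ (4 * A * v) < 2 ^ u1 * x + 2 ^ u2 * y + c0 then (1 : ℝ) else 0) *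
          P (2 ^ u1 * x + 2 ^ u2 * y + c0) ≤
      1 / 2 * ∑ x ∈ range (2 ^ B), ∑ y ∈ range (2 ^ B),
        W (2 ^ u1 * x + 2 ^ u2 * y + c0) * P (2 ^ u1 * x + 2 ^ u2 * y + c0) +
        K * (6 * 2 ^ B * 2 ^ B / 2 ^ (2 * v)) := by
  obtain ⟨F, G, hF, hG, hFG⟩ := hr
  have hcop : ∀ q : ℕ, q.Prime → 2 < q → Nat.Coprime (2 ^ u1) q ∧ Nat.Coprime (2 ^ u2) q := by
    intro q hq h2
    have h3 : Nat.Coprime 2 q := (Nat.coprime_primes Nat.prime_two hq).mpr (by omega)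
    exact ⟨Nat.Coprime.pow_left u1 h3, Nat.Coprime.pow_left u2 h3⟩
  have key : ∀ κ : ℕ → ℝ, ∑ x ∈ range (2 ^ B), ∑ y ∈ range (2 ^ B),
        κ (2 ^ u1 * x + 2 ^ u2 * y + c0) * P (2 ^ u1 * x + 2 ^ u2 * y + c0) =
      ∑ i, SS (2 ^ B) (2 ^ B) (2 ^ u1) (2 ^ u2) c0
        (fun x => F i ⟨wd B x, Pool.Agent.PrbM.wd_length B x⟩)
        (fun y => G i ⟨wd B y, Pool.Agent.PrbM.wd_length B y⟩) κ := by
    intro κ
    unfold SS
    symm
    rw [Finset.sum_comm]
    refine Finset.sum_congr rfl fun x hx => ?_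
    rw [Finset.sum_comm]
    refine Finset.sum_congr rfl fun y hy => ?_
    rw [hP x (Finset.mem_range.mp hx) y (Finset.mem_range.mp hy), hFG, Finset.mul_sum]
    refine Finset.sum_congr rfl fun i _ => ?_
    ring
  have h2 : ∀ i : Fin K, SS (2 ^ B) (2 ^ B) (2 ^ u1) (2 ^ u2) c0
        (fun x => F i ⟨wd B x, Pool.Agent.PrbM.wd_length B x⟩)
        (fun y => G i ⟨wd B y, Pool.Agent.PrbM.wd_length B y⟩)
        (fun s => if s.Prime ∧ 2 ^ (4 * A * v) < s then 1 else 0) ≤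
      1 / 2 * SS (2 ^ B) (2 ^ B) (2 ^ u1) (2 ^ u2) c0
        (fun x => F i ⟨wd B x, Pool.Agent.PrbM.wd_length B x⟩)
        (fun y => G i ⟨wd B y, Pool.Agent.PrbM.wd_length B y⟩) W + 6 * 2 ^ B * 2 ^ B / 2 ^ (2 * v) := by
    intro i
    have h3 := hW (2 ^ B) (2 ^ B) (2 ^ u1) (2 ^ u2) c0
      (fun x => F i ⟨wd B x, Pool.Agent.PrbM.wd_length B x⟩)
      (fun y => G i ⟨wd B y, Pool.Agent.PrbM.wd_length B y⟩) (Nat.pow_le_pow_right (by norm_num) hB)
      (Nat.pow_le_pow_right (by norm_num) hB) hcop (fun x => hF i _) (fun y => hG i _)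
    refine h3.trans (le_of_eq ?_)
    push_cast
    rfl
  have k1 := key (fun s => if s.Prime ∧ 2 ^ (4 * A * v) < s then 1 else 0)
  have k2 := key W
  rw [k1, k2]
  refine (Finset.sum_le_sum fun i _ => h2 i).trans (le_of_eq ?_)
  rw [Finset.sum_add_distrib, ← Finset.mul_sum, Finset.sum_const, Finset.card_univ,
    Fintype.card_fin, nsmul_eq_mul]

/-- F3. As `PrbM.sieve_dec`, for each frame `a, c, e` the inequality `hW` with
`g₁ = 2 ^ (n - (i+1) B)`, `g₂ = 2 ^ (n - (j+1) B)`, `N₁ = N₂ = 2 ^ B` for each of the `K` products,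
summed over the frames by F1 (the last term: `2 ^ (i B) 2 ^ ((j-i-1) B) 2 ^ (n - (j+1) B) (2 ^ B)² = 2 ^ n`).
Here `p` is a function of words; F2. -/
theorem sieve_frame (v A : ℕ) (W : ℕ → ℝ)
    (hW : ∀ (N1 N2 g1 g2 c0 : ℕ) (F G : ℕ → ℝ), 2 ^ (16 * A * v) ≤ N1 → 2 ^ (16 * A * v) ≤ N2 →
      (∀ q : ℕ, q.Prime → 2 < q → Nat.Coprime g1 q ∧ Nat.Coprime g2 q) →
      (∀ x, 0 ≤ F x ∧ F x ≤ 1) → (∀ x, 0 ≤ G x ∧ G x ≤ 1) →
      SS N1 N2 g1 g2 c0 F G (fun s => if s.Prime ∧ 2 ^ (4 * A * v) < s then 1 else 0) ≤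
        1 / 2 * SS N1 N2 g1 g2 c0 F G W + 6 * N1 * N2 / 2 ^ (2 * v))
    (n B i j K : ℕ) (hij : i < j) (hj : (j + 1) * B ≤ n) (hB : 16 * A * v ≤ B)
    (p : List Bool → ℝ)
    (hp : ∀ a c e : List Bool, a.length = i * B → c.length = (j - i - 1) * B →
      e.length = n - (j + 1) * B →
      Dec K (fun (x : {x : List Bool // x.length = B}) (y : {y : List Bool // y.length = B}) =>
        p (fr a x.1 c y.1 e))) :
    ∑ s ∈ (range (2 ^ n)).filter (fun s => s.Prime ∧ 2 ^ (4 * A * v) < s), p (wd n s) ≤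
      1 / 2 * ∑ s ∈ range (2 ^ n), W s * p (wd n s) + K * (6 * 2 ^ n / 2 ^ (2 * v)) := by
  have h1 : ∑ s ∈ (range (2 ^ n)).filter (fun s => s.Prime ∧ 2 ^ (4 * A * v) < s), p (wd n s) =
      ∑ s ∈ range (2 ^ n), (if s.Prime ∧ 2 ^ (4 * A * v) < s then (1 : ℝ) else 0) * p (wd n s) := by
    rw [Finset.sum_filter]
    refine Finset.sum_congr rfl fun s _ => ?_
    split_ifs <;> simp
  have hfr : ∀ a ∈ range (2 ^ (i * B)), ∀ c ∈ range (2 ^ ((j - i - 1) * B)),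
      ∀ e ∈ range (2 ^ (n - (j + 1) * B)), _ := fun a ha c hc e he =>
    sieve_frame_one v A W hW B K (n - (i + 1) * B) (n - (j + 1) * B)
      (2 ^ (n - i * B) * a + 2 ^ (n - j * B) * c + e) hB (fun s => p (wd n s))
      (fun x y => p (fr (wd (i * B) a) x.1 (wd ((j - i - 1) * B) c) y.1 (wd (n - (j + 1) * B) e)))
      (hp _ _ _ (Pool.Agent.PrbM.wd_length _ _) (Pool.Agent.PrbM.wd_length _ _)
        (Pool.Agent.PrbM.wd_length _ _))
      (fun x hx y hy => by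
        show p (wd n _) = p (fr _ _ _ _ _)
        rw [(wd_frame n B i j a c e x y hij hj (Finset.mem_range.mp ha) (Finset.mem_range.mp hc)
          (Finset.mem_range.mp he) hx hy).1])
  rw [h1, sum_frame n B i j hij hj, sum_frame n B i j hij hj (fun s => W s * p (wd n s))]
  refine (Finset.sum_le_sum fun a ha => Finset.sum_le_sum fun c hc =>
    Finset.sum_le_sum fun e he => hfr a ha c hc e he).trans (le_of_eq ?_)
  simp only [Finset.sum_add_distrib, ← Finset.mul_sum, Finset.sum_const, Finset.card_range,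
    nsmul_eq_mul]
  congr 1
  push_cast
  have e1 : (2 : ℝ) ^ n = 2 ^ (i * B) * (2 ^ ((j - i - 1) * B) * (2 ^ (n - (j + 1) * B) *
      (2 ^ B * 2 ^ B))) := by
    rw [← pow_add, ← pow_add, ← pow_add, ← pow_add]
    congr 1
    obtain ⟨k, rfl⟩ := Nat.exists_eq_add_of_lt hij
    have h5 : i + k + 1 - i - 1 = k := by omega
    rw [h5]
    have h6 : i * B + (k * B + (n - (i + k + 1 + 1) * B + (B + B))) =
      (n - (i + k + 1 + 1) * B) + (i + k + 1 + 1) * B := by ring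
    rw [h6]
    omega
  rw [e1]
  ring
-- END sieve_frame

-- BEGIN one_pair
/-- F4. As `PrbM.one_boundary` (copy it), with F3, K12 (`Dec.pow`), K13 instead of `sieve_dec`,
`dec_pv`, `pv_bdd`, `pv_le`. -/
theorem one_pair (M : PTM) (β : ℝ) (hβ : 0 ≤ β)
    (v A : ℕ) (hA : 1 ≤ A) (hv : 1 ≤ v) (W : ℕ → ℝ) (hW0 : ∀ s, 0 ≤ W s)
    (hW1 : ∀ p : ℕ, p.Prime → 2 ^ v < p → W p = 1)
    (hWm : ∀ X : ℕ, ∑ s ∈ range X, W s ≤ 2 * X / v + 2 ^ (2 * v))
    (hW : ∀ (N1 N2 g1 g2 c0 : ℕ) (F G : ℕ → ℝ), 2 ^ (16 * A * v) ≤ N1 → 2 ^ (16 * A * v) ≤ N2 →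
      (∀ q : ℕ, q.Prime → 2 < q → Nat.Coprime g1 q ∧ Nat.Coprime g2 q) →
      (∀ x, 0 ≤ F x ∧ F x ≤ 1) → (∀ x, 0 ≤ G x ∧ G x ≤ 1) →
      SS N1 N2 g1 g2 c0 F G (fun s => if s.Prime ∧ 2 ^ (4 * A * v) < s then 1 else 0) ≤
        1 / 2 * SS N1 N2 g1 g2 c0 F G W + 6 * N1 * N2 / 2 ^ (2 * v))
    (S t m L n B i j : ℕ) (hij : i < j) (hj : (j + 1) * B ≤ n) (hB : 16 * A * v ≤ B)
    (h0 : ∀ w, w ∉ PRIMES → w.length = n → accProb M w ≤ β) :
    ∑ s ∈ np n, pk M S n B i j t m (wd n s) ^ L ≤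
      β ^ L * (2 * 2 ^ n / v + 2 ^ (2 * v)) +
        12 * ((base (toTM M) : ℝ) ^ (S + 1) * (n + 2) ^ M.k) ^ (m * L) * 2 ^ n / 2 ^ (2 * v) := by
  classical
  have hAv : 1 ≤ A * v := Nat.mul_pos hA hv
  have e1 : 16 * A * v = 16 * (A * v) := by ring
  have e2 : 4 * A * v = 4 * (A * v) := by ring
  have hBpos : 0 < B := by omega
  have hBn : 2 * B ≤ n := by
    refine le_trans ?_ hj
    exact Nat.mul_le_mul_right B (by omega)
  have hdec : ∀ a c e : List Bool, a.length = i * B → c.length = (j - i - 1) * B →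
      e.length = n - (j + 1) * B →
      Dec (((base (toTM M) ^ (S + 1) * (n + 2) ^ M.k) ^ m) ^ L)
        (fun (x : {x : List Bool // x.length = B}) (y : {y : List Bool // y.length = B}) =>
        (fun u => pk M S n B i j t m u ^ L) (fr a x.1 c y.1 e)) := by
    intro a c e ha hc _
    exact (dec_pk M S n B i j t m hBpos hij a c e ha hc).pow L
  have hs := sieve_frame v A W hW n B i j _ hij hj hB (fun u => pk M S n B i j t m u ^ L) hdec
  set p : ℕ → ℝ := fun s => pk M S n B i j t m (wd n s) ^ L with hp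
  have hp0 : ∀ s, 0 ≤ p s := fun s => pow_nonneg (pk_bdd M S n B i j t m _).1 L
  change ∑ s ∈ (range (2 ^ n)).filter (fun s => s.Prime ∧ 2 ^ (4 * A * v) < s), p s ≤
      1 / 2 * ∑ s ∈ range (2 ^ n), W s * p s + _ at hs
  have hnn : 4 * A * v < n - 1 := by omega
  have hvn : v ≤ 4 * A * v := by nlinarith
  have hsub : np n ⊆ (range (2 ^ n)).filter (fun s => s.Prime ∧ 2 ^ (4 * A * v) < s) := by
    intro s hs
    rw [np, mem_filter, mem_Ico] at hs
    rw [mem_filter, mem_range]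
    refine ⟨hs.1.2, hs.2, lt_of_lt_of_le ?_ hs.1.1⟩
    exact Nat.pow_lt_pow_right (by norm_num) hnn
  have hX : ∑ s ∈ np n, p s ≤
      ∑ s ∈ (range (2 ^ n)).filter (fun s => s.Prime ∧ 2 ^ (4 * A * v) < s), p s :=
    Finset.sum_le_sum_of_subset_of_nonneg hsub fun s _ _ => hp0 s
  have hnr : np n ⊆ range (2 ^ n) := fun s hs => by
    rw [np, mem_filter, mem_Ico] at hs
    exact mem_range.2 hs.1.2
  have hWp : ∑ s ∈ range (2 ^ n), W s * p s ≤
      ∑ s ∈ np n, p s + β ^ L * ∑ s ∈ range (2 ^ n), W s := by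
    rw [← Finset.sum_sdiff hnr, add_comm, Finset.mul_sum]
    apply add_le_add
    · apply le_of_eq
      refine Finset.sum_congr rfl fun s hs => ?_
      have h1 := hsub hs
      rw [mem_filter] at h1
      rw [hW1 s h1.2.1 (lt_of_le_of_lt (Nat.pow_le_pow_right (by norm_num) hvn) h1.2.2), one_mul]
    · calc ∑ s ∈ range (2 ^ n) \ np n, W s * p s
          ≤ ∑ s ∈ range (2 ^ n) \ np n, β ^ L * W s := by
            refine Finset.sum_le_sum fun s hs => ?_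
            rw [mem_sdiff, mem_range] at hs
            have h1 : wd n s ∉ PRIMES := fun h =>
              hs.2 ((Pool.Agent.PrbM.wd_primes n s (by omega) hs.1).1 h)
            have h2 : p s ≤ β ^ L :=
              pow_le_pow_left₀ (pk_bdd M S n B i j t m _).1
                ((pk_bdd M S n B i j t m _).2.2.trans
                  (h0 _ h1 (Pool.Agent.PrbM.wd_length n s))) L
            rw [mul_comm]
            exact mul_le_mul_of_nonneg_right h2 (hW0 s)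
        _ ≤ ∑ s ∈ range (2 ^ n), β ^ L * W s :=
            Finset.sum_le_sum_of_subset_of_nonneg Finset.sdiff_subset fun s _ _ =>
              mul_nonneg (pow_nonneg hβ L) (hW0 s)
  have hmass := hWm (2 ^ n)
  push_cast at hmass
  have hβL : 0 ≤ β ^ L := pow_nonneg hβ L
  have hm2 := mul_le_mul_of_nonneg_left hmass hβL
  have hK : ((((base (toTM M) ^ (S + 1) * (n + 2) ^ M.k) ^ m) ^ L : ℕ) : ℝ) =
      ((base (toTM M) : ℝ) ^ (S + 1) * (n + 2) ^ M.k) ^ (m * L) := by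
    push_cast
    rw [← pow_mul]
  rw [hK] at hs
  have e3 : 12 * ((base (toTM M) : ℝ) ^ (S + 1) * (n + 2) ^ M.k) ^ (m * L) * 2 ^ n / 2 ^ (2 * v) =
      2 * (((base (toTM M) : ℝ) ^ (S + 1) * (n + 2) ^ M.k) ^ (m * L) *
        (6 * 2 ^ n / 2 ^ (2 * v))) := by ring
  rw [e3]
  change ∑ s ∈ np n, p s ≤ _
  have h5 := hX.trans hs
  linarith
-- END one_pair

-- BEGIN jensen
/-- F5. Power mean (`Real.pow_arith_mean_le_arith_mean_pow` or `inner_le_nnorm_mul_nnorm`-type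
lemma, e.g. `Finset.pow_arith_mean_le_arith_mean_pow` with equal weights `1 / #P`). -/
theorem jensen {ι : Type} (P : Finset ι) (hP : P.Nonempty) (x : ι → ℝ) (hx : ∀ i, 0 ≤ x i) (a : ℝ)
    (ha : 0 ≤ a) (L : ℕ) (h : a * P.card ≤ ∑ i ∈ P, x i) :
    a ^ L * P.card ≤ ∑ i ∈ P, x i ^ L := by
  have hc : (0 : ℝ) < P.card := by exact_mod_cast hP.card_pos
  have h1 := Real.pow_arith_mean_le_arith_mean_pow P (fun _ => 1 / (P.card : ℝ)) x
    (fun _ _ => by positivity) (by rw [Finset.sum_const, nsmul_eq_mul]; field_simp)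
    (fun i _ => hx i) L
  rw [← Finset.mul_sum, ← Finset.mul_sum] at h1
  have h2 : a ≤ 1 / (P.card : ℝ) * ∑ i ∈ P, x i := by
    rw [one_div, inv_mul_eq_div, le_div_iff₀ hc]
    exact h
  have h3 : a ^ L ≤ 1 / (P.card : ℝ) * ∑ i ∈ P, x i ^ L := (pow_le_pow_left₀ ha h2 L).trans h1
  rw [one_div, inv_mul_eq_div, le_div_iff₀ hc] at h3
  exact h3
-- END jensen

-- BEGIN good_pair
/-- F6. For `s ∈ np n` with acceptance probability `P ≥ α`: `accWithin ≥ (1 - 1/e) P`,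
`accMoves / T ≤ P / e`, so by K17 `∑_z pk ≥ (1 - 1/e)(1 - 2/e) P #prs ≥ (1 - δ/2) α #prs`
(`6 ≤ e δ`); F5; exchange the sums over `s` and `z`, one `z` is at least the average. -/
theorem good_pair (M : PTM) (n S t L e T τ b B l : ℕ) (D α δ : ℝ) (hα : 0 < α) (hδ : 0 < δ)
    (hδ1 : δ ≤ 1) (heδ : 6 ≤ e * δ)
    (hα1 : ∀ s ∈ np n, α ≤ accProb M (wd n s))
    (hS : ∀ s ∈ np n, ∀ r, (∃ t, M.halt (run M (wd n s) r t).q = some true) →
      (visited M (wd n s) r).encard ≤ S)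
    (hD : ∀ s ∈ np n, accMoves M (wd n s) t ≤ D * accProb M (wd n s))
    (ha : ∀ s ∈ np n, (1 - 1 / (e : ℝ)) * accProb M (wd n s) ≤ accWithin M (wd n s) t)
    (he : 1 ≤ e) (hτ : 1 ≤ τ) (hT0 : 1 ≤ T) (hTD : e * D ≤ T) (hT : T ≤ e * n * τ)
    (hb : b = 96 * e ^ 2 * (M.k + 1) ^ 2 * τ) (hbn : b ≤ n) (hB : B = n / b)
    (hl : l = 48 * e ^ 2 * (M.k + 1) * τ) :
    ∃ z ∈ prs b, ((1 - δ / 2) * α) ^ L * (np n).card ≤
      ∑ s ∈ np n, pk M S n B z.1 z.2 t (2 * l) (wd n s) ^ L := by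
  have he0 : (0 : ℝ) < e := by exact_mod_cast he
  have he6 : (6 : ℝ) ≤ e := by nlinarith
  have hT0' : (1 : ℝ) ≤ T := by exact_mod_cast hT0
  have hb2 : 2 ≤ b := by
    have h1 : 1 ≤ e ^ 2 * (M.k + 1) ^ 2 * τ :=
      Nat.one_le_iff_ne_zero.2 (by positivity)
    rw [hb]
    nlinarith
  have hne : (prs b).Nonempty := by
    refine ⟨(0, 1), ?_⟩
    unfold prs
    simp only [mem_filter, mem_product, mem_range]
    omega
  have hinv : 1 / (e : ℝ) ≤ δ / 6 := by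
    rw [div_le_div_iff₀ he0 (by norm_num)]
    linarith
  have hinv0 : 0 < 1 / (e : ℝ) := by positivity
  have h1e : 1 / (e : ℝ) ≤ 1 / 6 := by linarith
  have hcard0 : (0 : ℝ) ≤ ((prs b).card : ℝ) := Nat.cast_nonneg _
  have key : ∀ s ∈ np n, ((1 - δ / 2) * α) ^ L * (prs b).card ≤
      ∑ z ∈ prs b, pk M S n B z.1 z.2 t (2 * l) (wd n s) ^ L := by
    intro s hs
    have hP := hα1 s hs
    have hP0 : 0 < accProb M (wd n s) := lt_of_lt_of_le hα hP
    have h17 := pk_sum M S n t e T τ b B l (wd n s) (Pool.Agent.PrbM.wd_length n s) (hS s hs) he hτ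
      hT0 hT hb hbn hB hl
    apply jensen (prs b) hne (fun z => pk M S n B z.1 z.2 t (2 * l) (wd n s))
      (fun z => (pk_bdd M S n B z.1 z.2 t (2 * l) (wd n s)).1) _ _ L
    · refine le_trans ?_ h17
      have hmv : accMoves M (wd n s) t / T ≤ 1 / (e : ℝ) * accProb M (wd n s) := by
        rw [div_le_iff₀ (by linarith)]
        refine (hD s hs).trans ?_
        have h2 : D ≤ 1 / (e : ℝ) * T := by
          rw [div_mul_eq_mul_div, one_mul, le_div_iff₀ he0]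
          linarith
        calc D * accProb M (wd n s) ≤ (1 / (e : ℝ) * T) * accProb M (wd n s) :=
              mul_le_mul_of_nonneg_right h2 hP0.le
          _ = 1 / (e : ℝ) * accProb M (wd n s) * T := by ring
      have h3 : (1 - 2 * (1 / (e : ℝ))) * accProb M (wd n s) ≤
          accWithin M (wd n s) t - accMoves M (wd n s) t / T := by
        have := ha s hs
        linarith
      have h4 : (1 - δ / 2) * α ≤ (1 - 1 / (e : ℝ)) * ((1 - 2 * (1 / (e : ℝ))) * accProb M (wd n s)) := by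
        have h5 : 1 - δ / 2 ≤ (1 - 1 / (e : ℝ)) * (1 - 2 * (1 / (e : ℝ))) := by nlinarith
        have h6 : 0 ≤ (1 - 1 / (e : ℝ)) * (1 - 2 * (1 / (e : ℝ))) :=
          mul_nonneg (by linarith) (by linarith)
        calc (1 - δ / 2) * α ≤ ((1 - 1 / (e : ℝ)) * (1 - 2 * (1 / (e : ℝ)))) * α :=
              mul_le_mul_of_nonneg_right h5 hα.le
          _ ≤ ((1 - 1 / (e : ℝ)) * (1 - 2 * (1 / (e : ℝ)))) * accProb M (wd n s) :=
              mul_le_mul_of_nonneg_left hP h6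
          _ = _ := by ring
      calc (1 - δ / 2) * α * (prs b).card
          ≤ ((1 - 1 / (e : ℝ)) * ((1 - 2 * (1 / (e : ℝ))) * accProb M (wd n s))) * (prs b).card :=
            mul_le_mul_of_nonneg_right h4 hcard0
        _ = (1 - 1 / (e : ℝ)) * (prs b).card * ((1 - 2 * (1 / (e : ℝ))) * accProb M (wd n s)) := by
            ring
        _ ≤ (1 - 1 / (e : ℝ)) * (prs b).card *
            (accWithin M (wd n s) t - accMoves M (wd n s) t / T) :=
            mul_le_mul_of_nonneg_left h3 (mul_nonneg (by linarith) hcard0)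
    · exact mul_nonneg (by linarith) hα.le
  by_contra hcon
  push Not at hcon
  have h1 : ∑ z ∈ prs b, ∑ s ∈ np n, pk M S n B z.1 z.2 t (2 * l) (wd n s) ^ L <
      ∑ _z ∈ prs b, ((1 - δ / 2) * α) ^ L * (np n).card :=
    Finset.sum_lt_sum_of_nonempty hne hcon
  rw [Finset.sum_comm, Finset.sum_const, nsmul_eq_mul] at h1
  have h2 : ∑ _s ∈ np n, ((1 - δ / 2) * α) ^ L * (prs b).card ≤
      ∑ s ∈ np n, ∑ z ∈ prs b, pk M S n B z.1 z.2 t (2 * l) (wd n s) ^ L :=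
    Finset.sum_le_sum key
  rw [Finset.sum_const, nsmul_eq_mul] at h2
  have h3 : ((np n).card : ℝ) * (((1 - δ / 2) * α) ^ L * (prs b).card) =
      (prs b).card * (((1 - δ / 2) * α) ^ L * (np n).card) := by ring
  linarith
-- END good_pair

end Pool.Agent.PrbK
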