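import Pool.Agent.PrbM.Fin
import Pool.Agent.PrbK.Frm

/-!
# PrbK FIN: the main theorem
-/

set_option autoImplicit false

namespace Pool.Agent.PrbK

open Finset

open Pool.Agent.PrbM (coins Dec SS wd wd_length wd_primes np_ge sieve_main main_L)

open Pool.Agent.MP_5082c5_lc (val enc np PRIMES base)

/-- One pair of blocks, the inequality before taking logarithms. -/
theorem pair_ineq (M : PTM) (δ : ℝ) (hδ : 0 < δ) (hδ1 : δ ≤ 1) (e : ℕ) (he : 1 ≤ e)
    (heδ : 6 ≤ e * δ) (v A : ℕ) (hA : 1 ≤ A) (hv : 1 ≤ v) (W : ℕ → ℝ) (hW0 : ∀ s, 0 ≤ W s)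
    (hW1 : ∀ p : ℕ, p.Prime → 2 ^ v < p → W p = 1)
    (hWm : ∀ X : ℕ, ∑ s ∈ range X, W s ≤ 2 * X / v + 2 ^ (2 * v))
    (hW : ∀ (N1 N2 g1 g2 c0 : ℕ) (F G : ℕ → ℝ), 2 ^ (16 * A * v) ≤ N1 → 2 ^ (16 * A * v) ≤ N2 →
      (∀ q : ℕ, q.Prime → 2 < q → Nat.Coprime g1 q ∧ Nat.Coprime g2 q) →
      (∀ x, 0 ≤ F x ∧ F x ≤ 1) → (∀ x, 0 ≤ G x ∧ G x ≤ 1) →
      SS N1 N2 g1 g2 c0 F G (fun s => if s.Prime ∧ 2 ^ (4 * A * v) < s then 1 else 0) ≤
        1 / 2 * SS N1 N2 g1 g2 c0 F G W + 6 * N1 * N2 / 2 ^ (2 * v))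
    (n τ b B l : ℕ) (hn : 1 ≤ n) (hnp : (2 : ℝ) ^ n ≤ 6 * n * (np n).card) (hτ : 1 ≤ τ)
    (hb : b = 96 * e ^ 2 * (M.k + 1) ^ 2 * τ) (hbn : b ≤ n) (hB : B = n / b)
    (hl : l = 48 * e ^ 2 * (M.k + 1) * τ) (hBv : 16 * A * v ≤ B) (hnv : n ≤ 64 * A * b * v)
    (α D : ℝ) (S : ℕ) (hα : 0 < α) (hD0 : 0 ≤ D) (hDτ : D < n * τ)
    (h1 : ∀ w ∈ PRIMES, w.length = n → α ≤ accProb M w)
    (h0 : ∀ w, w ∉ PRIMES → w.length = n → accProb M w ≤ (1 - δ) * α)
    (hD : ∀ w ∈ PRIMES, w.length = n → ∀ t, accMoves M w t ≤ D * accProb M w)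
    (hS : ∀ w ∈ PRIMES, w.length = n → ∀ r, (∃ t, M.halt (run M w r t).q = some true) →
      (visited M w r).encard ≤ S)
    (L : ℕ) (hL : (2304 * A * b : ℝ) * (1 - δ) ^ L ≤ (1 - δ / 2) ^ L) :
    2 ^ (2 * v) * ((1 - δ / 2) * α) ^ L ≤
      144 * n * ((base (toTM M) : ℝ) ^ (S + 1) * (n + 2) ^ M.k) ^ (2 * l * L) := by
  classical
  have hmem : ∀ s ∈ np n, s < 2 ^ n := fun s hs => by
    rw [np, mem_filter, mem_Ico] at hs
    exact hs.1.2
  have hPr : ∀ s ∈ np n, wd n s ∈ PRIMES := fun s hs =>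
    (wd_primes n s (by omega) (hmem s hs)).2 hs
  have hα1 : ∀ s ∈ np n, α ≤ accProb M (wd n s) := fun s hs => h1 _ (hPr s hs) (wd_length n s)
  have heR : (0 : ℝ) < e := by exact_mod_cast (show 0 < e by omega)
  -- the time
  have htime : ∃ t, ∀ s ∈ np n, (1 - 1 / (e : ℝ)) * accProb M (wd n s) ≤
      accWithin M (wd n s) t := by
    have h2 : ∀ s : ℕ, ∃ t₀, s ∈ np n → ∀ t ≥ t₀,
        (1 - 1 / (e : ℝ)) * accProb M (wd n s) ≤ accWithin M (wd n s) t := by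
      intro s
      by_cases hs : s ∈ np n
      · obtain ⟨t₀, ht⟩ := (acc_basic M (wd n s)).2.2.2.2
          ((1 - 1 / (e : ℝ)) * accProb M (wd n s)) (by
          have h3 := hα1 s hs
          have h4 : 0 < 1 / (e : ℝ) * accProb M (wd n s) := by
            apply mul_pos (by positivity)
            linarith
          linarith)
        exact ⟨t₀, fun _ => ht⟩
      · exact ⟨0, fun h => absurd h hs⟩
    choose t₀ ht₀ using h2
    refine ⟨(np n).sup t₀, fun s hs => ht₀ s hs _ ?_⟩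
    exact Finset.le_sup (f := t₀) hs
  obtain ⟨t, ht⟩ := htime
  obtain ⟨T, hTd⟩ : ∃ T : ℕ, T = e * (⌊D⌋₊ + 1) := ⟨_, rfl⟩
  have hT0 : 1 ≤ T := by rw [hTd]; exact Nat.mul_pos (by omega) (Nat.succ_pos _)
  have hTD : e * D ≤ T := by
    have h2 := (Nat.lt_floor_add_one D).le
    rw [hTd]
    push_cast
    exact mul_le_mul_of_nonneg_left h2 heR.le
  have hT : T ≤ e * n * τ := by
    have h2 : ⌊D⌋₊ < n * τ := (Nat.floor_lt hD0).2 (by push_cast; exact hDτ)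
    rw [hTd, mul_assoc]
    exact Nat.mul_le_mul_left e h2
  obtain ⟨z, hz, hgp⟩ := good_pair M n S t L e T τ b B l D α δ hα hδ hδ1 heδ hα1
    (fun s hs => hS _ (hPr s hs) (wd_length n s)) (fun s hs => hD _ (hPr s hs) (wd_length n s) t)
    ht he hτ hT0 hTD hT hb hbn hB hl
  rw [prs, mem_filter, mem_product, mem_range, mem_range] at hz
  have hb0 : 0 < b := by
    rw [hb]
    positivity
  have hjB : (z.2 + 1) * B ≤ n := by
    calc (z.2 + 1) * B ≤ b * B := Nat.mul_le_mul_right B hz.1.2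
      _ ≤ n := by rw [hB]; exact Nat.mul_div_le n b
  have hβ : 0 ≤ (1 - δ) * α := mul_nonneg (by linarith) hα.le
  have hop := one_pair M ((1 - δ) * α) hβ v A hA hv W hW0 hW1 hWm hW S t (2 * l) L n B z.1 z.2
    hz.2 hjB hBv h0
  have hmain := hgp.trans hop
  set R : ℝ := ((base (toTM M) : ℝ) ^ (S + 1) * (n + 2) ^ M.k) ^ (2 * l * L) with hR
  have hbase : (2 : ℝ) ≤ base (toTM M) := by
    exact_mod_cast Pool.Agent.MP_5082c5_lc.two_le_base (toTM M)
  have hR0 : 0 < R := by positivity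
  have hvR : (0 : ℝ) < v := by exact_mod_cast hv
  have hnpos : (0 : ℝ) < n := by exact_mod_cast (show 0 < n by omega)
  have hP : (0 : ℝ) < 2 ^ n := by positivity
  have hV : (0 : ℝ) < 2 ^ (2 * v) := by positivity
  have hAR : (1 : ℝ) ≤ A := by exact_mod_cast hA
  have hbR : (0 : ℝ) < b := by exact_mod_cast hb0
  have hnvR : (n : ℝ) ≤ 64 * A * b * v := by exact_mod_cast hnv
  -- the mass
  have hmass : 2 * (2 : ℝ) ^ n / v + 2 ^ (2 * v) ≤ 192 * A * b * 2 ^ n / n := by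
    have h2 : (2 : ℝ) ^ (2 * v) ≤ 2 ^ n / v := by
      rw [le_div_iff₀ hvR]
      calc (2 : ℝ) ^ (2 * v) * v ≤ 2 ^ (2 * v) * 2 ^ v := by
            apply mul_le_mul_of_nonneg_left _ (by positivity)
            exact_mod_cast Nat.lt_two_pow_self.le
        _ = 2 ^ (3 * v) := by rw [← pow_add]; congr 1; ring
        _ ≤ 2 ^ n := by
            apply pow_le_pow_right₀ (by norm_num)
            have h3 : 3 * v ≤ 16 * A * v := by nlinarith
            have h4 : B ≤ n := by rw [hB]; exact Nat.div_le_self n b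
            omega
    have h3 : (2 : ℝ) ^ n / v ≤ 64 * A * b * 2 ^ n / n := by
      rw [div_le_div_iff₀ hvR hnpos]
      calc (2 : ℝ) ^ n * n ≤ 2 ^ n * (64 * A * b * v) := mul_le_mul_of_nonneg_left hnvR hP.le
        _ = 64 * A * b * 2 ^ n * v := by ring
    have h4 : 2 * (2 : ℝ) ^ n / v = 2 * (2 ^ n / v) := by ring
    have h5 : 192 * A * b * (2 : ℝ) ^ n / n = 3 * (64 * A * b * 2 ^ n / n) := by ring
    rw [h4, h5]
    linarith
  obtain ⟨ρ, hρd⟩ : ∃ ρ : ℝ, ρ = (1 - δ / 2) * α := ⟨_, rfl⟩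
  have hρ0 : 0 < ρ := by rw [hρd]; exact mul_pos (by linarith) hα
  have hρL : 0 < ρ ^ L := pow_pos hρ0 L
  have hβL : 0 ≤ ((1 - δ) * α) ^ L := pow_nonneg hβ L
  rw [← hρd] at hmain ⊢
  have hβρ : 2304 * A * b * ((1 - δ) * α) ^ L ≤ ρ ^ L := by
    rw [hρd, mul_pow, mul_pow]
    calc 2304 * A * b * ((1 - δ) ^ L * α ^ L) = (2304 * A * b * (1 - δ) ^ L) * α ^ L := by ring
      _ ≤ (1 - δ / 2) ^ L * α ^ L := mul_le_mul_of_nonneg_right hL (by positivity)
  have h2 : ρ ^ L * (2 ^ n / (6 * n)) ≤ ρ ^ L * (np n).card := by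
    have h3 : (2 : ℝ) ^ n / (6 * n) ≤ (np n).card := by
      rw [div_le_iff₀ (by positivity)]
      linarith
    exact mul_le_mul_of_nonneg_left h3 hρL.le
  have h4 : ((1 - δ) * α) ^ L * (2 * 2 ^ n / v + 2 ^ (2 * v)) ≤ ρ ^ L / 12 * (2 ^ n / n) := by
    calc ((1 - δ) * α) ^ L * (2 * 2 ^ n / v + 2 ^ (2 * v))
        ≤ ((1 - δ) * α) ^ L * (192 * A * b * 2 ^ n / n) := mul_le_mul_of_nonneg_left hmass hβL
      _ = (2304 * A * b * ((1 - δ) * α) ^ L) / 12 * (2 ^ n / n) := by ring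
      _ ≤ ρ ^ L / 12 * (2 ^ n / n) := by
          apply mul_le_mul_of_nonneg_right _ (by positivity)
          linarith
  have h5 : ρ ^ L / 12 * (2 ^ n / n) ≤ 12 * R * 2 ^ n / 2 ^ (2 * v) := by
    have h6 : ρ ^ L * (2 ^ n / (6 * n)) = 2 * (ρ ^ L / 12 * (2 ^ n / n)) := by
      field_simp
      norm_num
    linarith
  have h7 : ρ ^ L / 12 * (2 ^ n / n) = (ρ ^ L / (12 * n)) * 2 ^ n := by
    field_simp
  have h8 : 12 * R * 2 ^ n / 2 ^ (2 * v) = (12 * R / 2 ^ (2 * v)) * 2 ^ n := by ring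
  rw [h7, h8] at h5
  have h9 := le_of_mul_le_mul_right h5 hP
  rw [div_le_div_iff₀ (by positivity) hV] at h9
  linarith

/-- The logarithmic inequality for the parameters. -/
theorem log_ineq (M : PTM) (δ : ℝ) (hδ : 0 < δ) (hδ1 : δ ≤ 1) (v A b n l L S : ℕ) (α C : ℝ)
    (hn : 3 ≤ n) (hα : 0 < α) (hC : 1 ≤ C)
    (hLe : 1 ≤ (1 - δ / 2) ^ L * Real.exp (2 * Real.log C + 1))
    (h : 2 ^ (2 * v) * ((1 - δ / 2) * α) ^ L ≤
      144 * n * ((base (toTM M) : ℝ) ^ (S + 1) * (n + 2) ^ M.k) ^ (2 * l * L)) :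
    2 * v * Real.log 2 ≤ 144 * Real.log n +
      2 * l * L * ((Real.log (base (toTM M)) + 2 * M.k) * (S + Real.log n)) +
      (2 * Real.log C + 1) + L * Real.log (1 / α) := by
  have hnR : (3 : ℝ) ≤ n := by exact_mod_cast hn
  have hbase : (2 : ℝ) ≤ base (toTM M) := by
    exact_mod_cast Pool.Agent.MP_5082c5_lc.two_le_base (toTM M)
  have hlb0 : 0 ≤ Real.log (base (toTM M)) := Real.log_nonneg (by linarith)
  have hln : 1 ≤ Real.log n := by
    rw [Real.le_log_iff_exp_le (by linarith)]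
    exact (Real.exp_one_lt_d9.le.trans (by norm_num)).trans hnR
  set R : ℝ := (base (toTM M) : ℝ) ^ (S + 1) * (n + 2) ^ M.k with hR
  have hR0 : 0 < R := by positivity
  have h2 : 2 ^ (2 * v) * α ^ L ≤ 144 * n * R ^ (2 * l * L) * Real.exp (2 * Real.log C + 1) := by
    calc 2 ^ (2 * v) * α ^ L = 2 ^ (2 * v) * α ^ L * 1 := (mul_one _).symm
      _ ≤ 2 ^ (2 * v) * α ^ L * ((1 - δ / 2) ^ L * Real.exp (2 * Real.log C + 1)) :=
          mul_le_mul_of_nonneg_left hLe (by positivity)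
      _ = 2 ^ (2 * v) * ((1 - δ / 2) * α) ^ L * Real.exp (2 * Real.log C + 1) := by
          rw [mul_pow]; ring
      _ ≤ _ := mul_le_mul_of_nonneg_right h (Real.exp_pos _).le
  have h3 := Real.log_le_log (by positivity) h2
  rw [Real.log_mul (by positivity) (by positivity), Real.log_pow, Real.log_pow,
    Real.log_mul (by positivity) (Real.exp_pos _).ne', Real.log_exp,
    Real.log_mul (by positivity) (by positivity), Real.log_pow,
    Real.log_mul (by norm_num) (by positivity)] at h3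
  have hlR : Real.log R ≤ (Real.log (base (toTM M)) + 2 * M.k) * (S + Real.log n) := by
    rw [hR, Real.log_mul (by positivity) (by positivity), Real.log_pow, Real.log_pow]
    have h4 : Real.log ((n : ℝ) + 2) ≤ 2 * Real.log n := by
      have h5 : Real.log ((n : ℝ) + 2) ≤ Real.log ((n : ℝ) ^ 2) :=
        Real.log_le_log (by positivity) (by nlinarith)
      rw [Real.log_pow] at h5
      push_cast at h5
      exact h5
    have hk : (0 : ℝ) ≤ M.k := Nat.cast_nonneg _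
    have hS : (0 : ℝ) ≤ S := Nat.cast_nonneg _
    have h6 : (M.k : ℝ) * Real.log ((n : ℝ) + 2) ≤ M.k * (2 * Real.log n) :=
      mul_le_mul_of_nonneg_left h4 hk
    have h7 : Real.log (base (toTM M)) * ((S : ℝ) + 1) ≤
        Real.log (base (toTM M)) * (S + Real.log n) :=
      mul_le_mul_of_nonneg_left (by linarith) hlb0
    have h8 : (M.k : ℝ) * (2 * Real.log n) ≤ 2 * M.k * (S + Real.log n) := by nlinarith
    push_cast
    linarith
  have h9 : (((2 * l * L : ℕ) : ℝ)) * Real.log R ≤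
      2 * l * L * ((Real.log (base (toTM M)) + 2 * M.k) * (S + Real.log n)) := by
    push_cast
    exact mul_le_mul_of_nonneg_left hlR (by positivity)
  have h10 : Real.log 144 ≤ 143 * Real.log n := by
    have := Real.log_le_sub_one_of_pos (show (0 : ℝ) < 144 by norm_num)
    linarith
  have hlα : Real.log (1 / α) = -Real.log α := by rw [one_div, Real.log_inv]
  rw [hlα]
  push_cast at h3 h9 ⊢
  linarith

/-- **Main theorem.** -/
theorem main (M : PTM) (δ : ℝ) (hδ : 0 < δ) (hδ1 : δ ≤ 1) :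
    ∃ (c : ℝ) (n₀ : ℕ), 0 < c ∧ ∀ (n : ℕ) (α D : ℝ) (S : ℕ), n₀ ≤ n → 0 < α →
      (∀ w ∈ PRIMES, w.length = n → α ≤ accProb M w) →
      (∀ w, w ∉ PRIMES → w.length = n → accProb M w ≤ (1 - δ) * α) →
      (∀ w ∈ PRIMES, w.length = n → ∀ t, accMoves M w t ≤ D * accProb M w) →
      (∀ w ∈ PRIMES, w.length = n → ∀ r, (∃ t, M.halt (run M w r t).q = some true) →
        (visited M w r).encard ≤ S) →
      c * (n : ℝ) ^ 3 ≤ (D + n) * Real.log (2 + D / n) *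
        ((D + n) * (S + Real.log n) + n * Real.log (1 / α)) := by
  classical
  obtain ⟨A, v0, hA, hv0, hsv⟩ := sieve_main
  obtain ⟨n1, hn1⟩ := np_ge
  have hAR : (1 : ℝ) ≤ A := by exact_mod_cast hA
  have hv0R : (1 : ℝ) ≤ v0 := by exact_mod_cast hv0
  obtain ⟨e, hed⟩ : ∃ e : ℕ, e = ⌈6 / δ⌉₊ := ⟨_, rfl⟩
  have heδ : 6 ≤ e * δ := by
    have h2 : 6 / δ ≤ e := by rw [hed]; exact Nat.le_ceil _
    rwa [div_le_iff₀ hδ] at h2
  have he6 : (6 : ℝ) ≤ e := by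
    have h2 : (e : ℝ) * δ ≤ e * 1 := mul_le_mul_of_nonneg_left hδ1 (Nat.cast_nonneg e)
    linarith
  have he : 1 ≤ e := by
    have : (1 : ℝ) ≤ e := by linarith
    exact_mod_cast this
  obtain ⟨Cb, hCb⟩ : ∃ Cb : ℕ, Cb = 96 * e ^ 2 * (M.k + 1) ^ 2 := ⟨_, rfl⟩
  have hCb1 : 1 ≤ Cb := by
    have h2 : 0 < Cb := by rw [hCb]; positivity
    exact h2
  have hCbR : (1 : ℝ) ≤ Cb := by exact_mod_cast hCb1
  have hlog2 : 0 < Real.log 2 := Real.log_pos (by norm_num)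
  have hbase : (2 : ℝ) ≤ base (toTM M) := by
    exact_mod_cast Pool.Agent.MP_5082c5_lc.two_le_base (toTM M)
  obtain ⟨C5, hC5⟩ : ∃ C5 : ℝ, C5 = Real.log (base (toTM M)) + 2 * M.k := ⟨_, rfl⟩
  have hC50 : 0 ≤ C5 := by
    have h2 : 0 ≤ Real.log (base (toTM M)) := Real.log_nonneg (by linarith)
    rw [hC5]
    positivity
  obtain ⟨K0, hK0⟩ : ∃ K0 : ℝ, K0 = Real.log (2304 * A * Cb) := ⟨_, rfl⟩
  have hAC : (1 : ℝ) ≤ A * Cb := by nlinarith
  have hK00 : 0 ≤ K0 := by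
    rw [hK0]
    apply Real.log_nonneg
    nlinarith
  obtain ⟨K2, hK2⟩ : ∃ K2 : ℝ, K2 = 2 * (K0 / Real.log 2 + 1) + 1 / Real.log 2 := ⟨_, rfl⟩
  have hK20 : 0 < K2 := by rw [hK2]; positivity
  obtain ⟨K3, hK3⟩ : ∃ K3 : ℝ, K3 = 48 * e ^ 2 * (M.k + 1) := ⟨_, rfl⟩
  have hK30 : 0 < K3 := by rw [hK3]; positivity
  obtain ⟨K6, hK6⟩ : ∃ K6 : ℝ, K6 = (144 / Real.log 2 + 2 * K3 * (K2 / δ) * C5 + K2 + K2 / δ) /
      (2 * Real.log 2) := ⟨_, rfl⟩
  have hK60 : 0 < K6 := by rw [hK6]; positivity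
  obtain ⟨K9, hK9⟩ : ∃ K9 : ℝ, K9 = 64 * A * Cb * K6 + 16 * A * v0 * Cb / Real.log 2 := ⟨_, rfl⟩
  have hK90 : 0 < K9 := by rw [hK9]; positivity
  refine ⟨1 / K9, max n1 3, by positivity, ?_⟩
  intro n α D S hn hα h1 h0 hD hS
  have hnn1 : n1 ≤ n := (le_max_left _ _).trans hn
  have hn3 : 3 ≤ n := (le_max_right _ _).trans hn
  have hnR : (3 : ℝ) ≤ n := by exact_mod_cast hn3
  have hnpos : (0 : ℝ) < n := by linarith
  have hln : 1 ≤ Real.log n := by
    rw [Real.le_log_iff_exp_le (by linarith)]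
    exact (Real.exp_one_lt_d9.le.trans (by norm_num)).trans hnR
  have hnp := hn1 n hnn1
  have hnp0 : 0 < (np n).card := by
    by_contra hcon
    have h2 : (np n).card = 0 := by omega
    rw [h2] at hnp
    have h3 : (0 : ℝ) < 2 ^ n := by positivity
    simp at hnp
    linarith
  obtain ⟨s0, hs0⟩ := Finset.card_pos.1 hnp0
  have hs0n : s0 < 2 ^ n := by
    rw [np, mem_filter, mem_Ico] at hs0
    exact hs0.1.2
  have hPr0 : wd n s0 ∈ PRIMES := (wd_primes n s0 (by omega) hs0n).2 hs0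
  have hα1 := h1 _ hPr0 (wd_length n s0)
  have hα1' : α ≤ 1 := hα1.trans (acc_basic M _).2.2.2.1
  have hD0 : 0 ≤ D := by
    have h3 := hD _ hPr0 (wd_length n s0) 0
    have h2 : 0 ≤ accMoves M (wd n s0) 0 := by
      unfold accMoves
      apply div_nonneg _ (by positivity)
      refine Finset.sum_nonneg fun x _ => ?_
      split_ifs
      · positivity
      · exact le_refl _
    have h4 : 0 < accProb M (wd n s0) := lt_of_lt_of_le hα hα1
    by_contra hcon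
    have h5 : D * accProb M (wd n s0) < 0 := mul_neg_of_neg_of_pos (not_le.1 hcon) h4
    linarith
  obtain ⟨ℓ, hℓ⟩ : ∃ ℓ : ℝ, ℓ = Real.log (1 / α) := ⟨_, rfl⟩
  have hℓ0 : 0 ≤ ℓ := by
    rw [hℓ]
    apply Real.log_nonneg
    rw [le_div_iff₀ hα]
    linarith
  obtain ⟨X, hX⟩ : ∃ X : ℝ, X = D / n + 1 := ⟨_, rfl⟩
  have hDn0 : 0 ≤ D / n := div_nonneg hD0 hnpos.le
  have hX1 : 1 ≤ X := by rw [hX]; linarith
  obtain ⟨Λ, hΛ⟩ : ∃ Λ : ℝ, Λ = Real.log (2 + D / n) := ⟨_, rfl⟩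
  have hΛ2 : Real.log 2 ≤ Λ := by
    rw [hΛ]
    exact Real.log_le_log (by norm_num) (by linarith)
  have hΛ0 : 0 < Λ := by linarith
  have hXΛ : Real.log X ≤ Λ := by
    rw [hΛ, hX]
    exact Real.log_le_log (by positivity) (by linarith)
  obtain ⟨Y, hY⟩ : ∃ Y : ℝ, Y = X * (S + Real.log n) + ℓ := ⟨_, rfl⟩
  have hS0 : (0 : ℝ) ≤ S := Nat.cast_nonneg S
  have hXS : 1 ≤ X * (S + Real.log n) := by nlinarith
  have hlnXS : Real.log n ≤ X * (S + Real.log n) := by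
    have h2 : 1 * (S + Real.log n) ≤ X * (S + Real.log n) :=
      mul_le_mul_of_nonneg_right hX1 (by linarith)
    linarith
  have hY1 : 1 ≤ Y := by rw [hY]; linarith
  have hXSY : X * (S + Real.log n) ≤ Y := by rw [hY]; linarith
  have hℓY : ℓ ≤ Y := by rw [hY]; linarith
  -- it suffices to bound `n`
  suffices hsuf : (n : ℝ) ≤ K9 * (X * Λ * Y) by
    rw [← hℓ, ← hΛ]
    have h2 : D + n = n * X := by
      rw [hX]
      field_simp
    rw [h2]
    have h3 : n * X * Λ * (n * X * (S + Real.log n) + n * ℓ) = (n : ℝ) ^ 2 * (X * Λ * Y) := by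
      rw [hY]; ring
    rw [h3]
    have h4 : 1 / K9 * (n : ℝ) ^ 3 = (n : ℝ) ^ 2 * (n / K9) := by ring
    rw [h4]
    apply mul_le_mul_of_nonneg_left _ (by positivity)
    rw [div_le_iff₀ hK90]
    linarith
  obtain ⟨τ, hτd⟩ : ∃ τ : ℕ, τ = ⌊D / n⌋₊ + 1 := ⟨_, rfl⟩
  have hτ1 : 1 ≤ τ := by omega
  have hτX : (τ : ℝ) ≤ X := by
    have h2 := Nat.floor_le hDn0
    rw [hτd, hX]
    push_cast
    linarith
  have hDτ : D < n * τ := by
    have h2 := Nat.lt_floor_add_one (D / n)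
    have h3 : ((⌊D / n⌋₊ : ℕ) : ℝ) + 1 = τ := by rw [hτd]; push_cast; ring
    rw [h3, div_lt_iff₀ hnpos] at h2
    linarith
  obtain ⟨b, hb⟩ : ∃ b : ℕ, b = 96 * e ^ 2 * (M.k + 1) ^ 2 * τ := ⟨_, rfl⟩
  have hbC : b = Cb * τ := by rw [hb, hCb]
  have hb1 : 1 ≤ b := by rw [hbC]; exact Nat.mul_pos hCb1 hτ1
  have hbX : (b : ℝ) ≤ Cb * X := by
    rw [hbC]
    push_cast
    exact mul_le_mul_of_nonneg_left hτX (by positivity)
  have hYΛ : (1 : ℝ) ≤ Λ / Real.log 2 * Y := by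
    have h2 : 1 ≤ Λ / Real.log 2 := by rw [le_div_iff₀ hlog2]; linarith
    nlinarith
  obtain ⟨B, hB⟩ : ∃ B : ℕ, B = n / b := ⟨_, rfl⟩
  by_cases hcase : b ≤ n ∧ 16 * A * v0 ≤ B
  swap
  · -- the trivial case
    have h2 : n ≤ 16 * A * v0 * b := by
      have h16 : 1 ≤ 16 * A * v0 := Nat.mul_pos (by omega) hv0
      by_cases hbn : b ≤ n
      · have h3 : ¬ 16 * A * v0 ≤ B := fun h => hcase ⟨hbn, h⟩
        have h4 : n < b * (n / b + 1) := Nat.lt_mul_div_succ n hb1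
        rw [← hB] at h4
        have h5 : b * (B + 1) ≤ b * (16 * A * v0) := Nat.mul_le_mul_left b (by omega)
        have h6 : b * (16 * A * v0) = 16 * A * v0 * b := by ring
        omega
      · have h3 : 1 * b ≤ 16 * A * v0 * b := Nat.mul_le_mul_right b h16
        omega
    have h3 : (n : ℝ) ≤ 16 * A * v0 * b := by exact_mod_cast h2
    calc (n : ℝ) ≤ 16 * A * v0 * b := h3
      _ ≤ 16 * A * v0 * (Cb * X) := mul_le_mul_of_nonneg_left hbX (by positivity)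
      _ = (16 * A * v0 * Cb * X) * 1 := by ring
      _ ≤ (16 * A * v0 * Cb * X) * (Λ / Real.log 2 * Y) :=
          mul_le_mul_of_nonneg_left hYΛ (by positivity)
      _ = 16 * A * v0 * Cb / Real.log 2 * (X * Λ * Y) := by ring
      _ ≤ K9 * (X * Λ * Y) := by
          apply mul_le_mul_of_nonneg_right _ (by positivity)
          rw [hK9]
          have : 0 ≤ 64 * A * Cb * K6 := by positivity
          linarith
  obtain ⟨hbn, hB16⟩ := hcase
  obtain ⟨v, hvd⟩ : ∃ v : ℕ, v = B / (16 * A) := ⟨_, rfl⟩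
  have h16A : 0 < 16 * A := by omega
  have hvv0 : v0 ≤ v := by
    rw [hvd, Nat.le_div_iff_mul_le h16A, mul_comm]
    exact hB16
  have hv1 : 1 ≤ v := hv0.trans hvv0
  have hBv : 16 * A * v ≤ B := by rw [hvd]; exact Nat.mul_div_le B _
  have hnv : n ≤ 64 * A * b * v := by
    have h2 : B < 16 * A * (v + 1) := by rw [hvd]; exact Nat.lt_mul_div_succ B h16A
    have h3 : n < b * (B + 1) := by rw [hB]; exact Nat.lt_mul_div_succ n hb1
    have h4 : 16 * A * (v + 1) ≤ 32 * A * v := by nlinarith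
    have h5 : B + 1 ≤ 32 * A * v := by omega
    have h6 : b * (B + 1) ≤ b * (32 * A * v) := Nat.mul_le_mul_left b h5
    have h7 : b * (32 * A * v) ≤ 64 * A * b * v := by nlinarith [Nat.zero_le (A * b * v)]
    omega
  obtain ⟨W, hW0, hW1, hWm, hW⟩ := hsv v hvv0
  obtain ⟨C, hCd⟩ : ∃ C : ℝ, C = 2304 * A * b := ⟨_, rfl⟩
  have hbR1 : (1 : ℝ) ≤ b := by exact_mod_cast hb1
  have hC1 : 1 ≤ C := by
    rw [hCd]
    have h2 : (1 : ℝ) ≤ A * b := by nlinarith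
    nlinarith
  obtain ⟨L, hL, hLδ, hLe⟩ := main_L C hC1 δ hδ hδ1
  obtain ⟨l, hl⟩ : ∃ l : ℕ, l = 48 * e ^ 2 * (M.k + 1) * τ := ⟨_, rfl⟩
  have hpair := pair_ineq M δ hδ hδ1 e he heδ v A hA hv1 W hW0 hW1 hWm hW n τ b B l (by omega)
    hnp hτ1 hb hbn hB hl hBv hnv α D S hα hD0 hDτ h1 h0 hD hS L (by rw [← hCd]; exact hL)
  have hlog := log_ineq M δ hδ hδ1 v A b n l L S α C hn3 hα hC1 hLe hpair
  rw [← hℓ, ← hC5] at hlog
  -- `log C`
  have hlogC : Real.log C ≤ (K0 / Real.log 2 + 1) * Λ := by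
    have h2 : C ≤ 2304 * A * Cb * X := by
      rw [hCd]
      calc (2304 : ℝ) * A * b ≤ 2304 * A * (Cb * X) :=
            mul_le_mul_of_nonneg_left hbX (by positivity)
        _ = _ := by ring
    have h3 : Real.log C ≤ K0 + Real.log X := by
      rw [hK0, ← Real.log_mul (by positivity) (by positivity)]
      exact Real.log_le_log (by linarith) h2
    have h4 : K0 ≤ K0 / Real.log 2 * Λ := by
      rw [div_mul_eq_mul_div, le_div_iff₀ hlog2]
      exact mul_le_mul_of_nonneg_left hΛ2 hK00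
    linarith
  have hC2 : 2 * Real.log C + 1 ≤ K2 * Λ := by
    have h2 : 1 ≤ 1 / Real.log 2 * Λ := by
      rw [div_mul_eq_mul_div, one_mul, le_div_iff₀ hlog2]
      linarith
    rw [hK2]
    linarith
  have hLK : (L : ℝ) ≤ K2 / δ * Λ := by
    have h2 := hLδ.trans hC2
    rw [div_mul_eq_mul_div, le_div_iff₀ hδ]
    exact h2
  have hlK : (l : ℝ) ≤ K3 * X := by
    have h2 : (l : ℝ) = K3 * τ := by rw [hl, hK3]; push_cast; ring
    rw [h2]
    exact mul_le_mul_of_nonneg_left hτX hK30.le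
  have hvK : (v : ℝ) ≤ K6 * (Λ * Y) := by
    have e1 : 144 * Real.log n ≤ 144 / Real.log 2 * (Λ * Y) := by
      have h2 : Real.log n ≤ Y := hlnXS.trans hXSY
      have h3 : 1 ≤ Λ / Real.log 2 := by rw [le_div_iff₀ hlog2]; linarith
      have h4 : Y ≤ Λ / Real.log 2 * Y := by nlinarith
      have h5 : 144 / Real.log 2 * (Λ * Y) = 144 * (Λ / Real.log 2 * Y) := by ring
      rw [h5]
      linarith
    have e2 : 2 * (l : ℝ) * L * (C5 * (S + Real.log n)) ≤ 2 * K3 * (K2 / δ) * C5 * (Λ * Y) := by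
      have hSl : 0 ≤ (S : ℝ) + Real.log n := by linarith
      have hL0 : (0 : ℝ) ≤ L := Nat.cast_nonneg L
      have hl0 : (0 : ℝ) ≤ l := Nat.cast_nonneg l
      calc 2 * (l : ℝ) * L * (C5 * (S + Real.log n))
          ≤ 2 * (K3 * X) * (K2 / δ * Λ) * (C5 * (S + Real.log n)) := by
            apply mul_le_mul_of_nonneg_right _ (by positivity)
            apply mul_le_mul (by linarith) hLK hL0 (by positivity)
        _ = 2 * K3 * (K2 / δ) * C5 * Λ * (X * (S + Real.log n)) := by ring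
        _ ≤ 2 * K3 * (K2 / δ) * C5 * Λ * Y := mul_le_mul_of_nonneg_left hXSY (by positivity)
        _ = _ := by ring
    have e3 : 2 * Real.log C + 1 ≤ K2 * (Λ * Y) := by
      have h2 : K2 * Λ ≤ K2 * Λ * Y := by
        have h3 : 0 ≤ K2 * Λ := by positivity
        nlinarith
      linarith
    have e4 : (L : ℝ) * ℓ ≤ K2 / δ * (Λ * Y) := by
      calc (L : ℝ) * ℓ ≤ K2 / δ * Λ * Y := mul_le_mul hLK hℓY hℓ0 (by positivity)
        _ = _ := by ring
    rw [hK6, div_mul_eq_mul_div, le_div_iff₀ (by positivity)]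
    linarith
  calc (n : ℝ) ≤ 64 * A * b * v := by exact_mod_cast hnv
    _ ≤ 64 * A * (Cb * X) * (K6 * (Λ * Y)) := by
        apply mul_le_mul _ hvK (by positivity) (by positivity)
        exact mul_le_mul_of_nonneg_left hbX (by positivity)
    _ = 64 * A * Cb * K6 * (X * Λ * Y) := by ring
    _ ≤ K9 * (X * Λ * Y) := by
        apply mul_le_mul_of_nonneg_right _ (by positivity)
        rw [hK9]
        have : 0 ≤ 16 * A * v0 * Cb / Real.log 2 := by positivity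
        linarith

end Pool.Agent.PrbK
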