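import Pool.Agent.MP_5082c5_lc.Machine
import Pool.Agent.PrbM.Chn

/-!
# PrbK PTK: probabilistic Turing machines with several two-way read-only input heads
-/

set_option autoImplicit false

namespace Pool.Agent.PrbK

open Pool.Agent.MP_5082c5_lc (Sym Move symAt newPos)

open Pool.Agent.PrbM (coins)

/-- A probabilistic Turing machine with `k` two-way read-only input heads and `w` two-way infinite
read-write work tapes; in every step a fair coin is tossed. -/
structure PTM where
  /-- the number of input heads -/
  k : ℕ
  /-- the number of work tapes -/
  w : ℕ
  /-- the states -/
  Q : Type
  /-- the work tape symbols -/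
  Γ : Type
  [finQ : Fintype Q]
  [finΓ : Fintype Γ]
  /-- the blank symbol -/
  blank : Γ
  /-- the initial state -/
  start : Q
  /-- `some true` for the accepting halting states, `some false` for the rejecting halting states,
  `none` for the other states -/
  halt : Q → Option Bool
  /-- the transition function: from the state, the input symbols scanned by the input heads, the
  scanned work symbols and the coin to the new state, the moves of the input heads, the written work
  symbols and the moves of the work heads -/
  δ : Q → (Fin k → Sym) → (Fin w → Γ) → Bool → Q × (Fin k → Move) × (Fin w → Γ) × (Fin w → Move)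

attribute [instance] PTM.finQ PTM.finΓ

/-- A configuration: state, positions of the input heads, contents of the work tapes, positions of
the work heads. Position `0` of the input tape holds the left endmarker, positions `1, …, n` hold
the input, position `n + 1` holds the right endmarker. -/
@[ext] structure Conf (M : PTM) where
  q : M.Q
  pos : Fin M.k → ℕ
  tape : Fin M.w → ℤ → M.Γ
  hd : Fin M.w → ℤ

/-- One step on the input `u` when the coin shows `b`; halting states stay unchanged. -/
def step (M : PTM) (u : List Bool) (c : Conf M) (b : Bool) : Conf M :=
  if (M.halt c.q).isSome then c else
    let r := M.δ c.q (fun i => symAt u (c.pos i)) (fun i => c.tape i (c.hd i)) b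
    { q := r.1
      pos := fun i => newPos u.length (c.pos i) (r.2.1 i)
      tape := fun i z => if z = c.hd i then r.2.2.1 i else c.tape i z
      hd := fun i => c.hd i + (r.2.2.2 i).toInt }

/-- The initial configuration. -/
def initConf (M : PTM) : Conf M :=
  { q := M.start
    pos := fun _ => 0
    tape := fun _ _ => M.blank
    hd := fun _ => 0 }

/-- The configuration after `t` steps on the input `u` when the coin tosses are `r 0, r 1, …`. -/
def run (M : PTM) (u : List Bool) (r : ℕ → Bool) : ℕ → Conf M
  | 0 => initConf M
  | t + 1 => step M u (run M u r t) (r t)

/-- The probability that `M` accepts `u` within `t` steps: the share of the `2 ^ t` sequences of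
`t` coin tosses with which it does. -/
noncomputable def accWithin (M : PTM) (u : List Bool) (t : ℕ) : ℝ :=
  ({x : Fin t → Bool | M.halt (run M u (coins x) t).q = some true}.ncard : ℝ) / 2 ^ t

/-- The probability that `M` accepts `u`. -/
noncomputable def accProb (M : PTM) (u : List Bool) : ℝ := ⨆ t, accWithin M u t

/-- The expectation, on the event that `M` accepts `u` within `t` steps, of the number of those of
the first `t` steps that move an input head. -/
noncomputable def accMoves (M : PTM) (u : List Bool) (t : ℕ) : ℝ :=
  (∑ x : Fin t → Bool, if M.halt (run M u (coins x) t).q = some true then
    ({s : ℕ | s < t ∧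
      (run M u (coins x) s).pos ≠ (run M u (coins x) (s + 1)).pos}.ncard : ℝ) else 0) / 2 ^ t

/-- The work cells visited on the input `u` with the coin tosses `r`: pairs (work tape, position). -/
def visited (M : PTM) (u : List Bool) (r : ℕ → Bool) : Set (Fin M.w × ℤ) :=
  {x | ∃ t, (run M u r t).hd x.1 = x.2}

end Pool.Agent.PrbK
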